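import Pool.Agent.H38.BT.Defs

namespace Pool.Agent.H38.BT

open Cardinal Set

/-- The infinite word obtained from `r` by placing the bit `r j` at position `pos j`. -/
noncomputable def star (pos : ℕ → ℕ) (r : ℕ → Bool) : ℕ → Bool := fun i =>
  @dite _ (∃ j, i = pos j) (Classical.propDecidable _) (fun h => r h.choose) (fun _ => false)

theorem star_pos {pos : ℕ → ℕ} (hpos : Function.Injective pos) (r : ℕ → Bool) (j : ℕ) :
    star pos r (pos j) = r j := by
  unfold star
  have h : ∃ j', pos j = pos j' := ⟨j, rfl⟩
  rw [dif_pos h]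
  exact congrArg r (hpos h.choose_spec).symm

theorem star_not {pos : ℕ → ℕ} (r : ℕ → Bool) {i : ℕ} (h : ¬ ∃ j, i = pos j) :
    star pos r i = false := by
  unfold star
  rw [dif_neg h]

theorem star_injective {pos : ℕ → ℕ} (hpos : Function.Injective pos) :
    Function.Injective (star pos) := by
  intro r s h
  funext j
  rw [← star_pos hpos r j, ← star_pos hpos s j, h]

/-- A finite-to-one labelling of `ℕ` by tree vertices can be replaced by an injective one, in such
a way that the labels on a ray stay on a ray. -/
theorem exists_stretch (f : ℕ → TreeVertex) (hf : ∀ v, {n | f n = v}.Finite) :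
    ∃ (g : ℕ → TreeVertex) (t : (ℕ → Bool) → (ℕ → Bool)), Function.Injective g ∧
      Function.Injective t ∧ ∀ r n, OnRay r (f n) → OnRay (t r) (g n) := by
  classical
  -- a bound for the indices whose label has a given level
  have hlev : ∀ l : ℕ, {n | (f n).1 = l}.Finite := by
    intro l
    have h1 : {n | (f n).1 = l} ⊆ ⋃ s : Fin l → Bool, {n | f n = ⟨l, s⟩} := by
      intro n hn
      simp only [Set.mem_iUnion]
      have hn' : (f n).1 = l := hn
      subst hn'
      exact ⟨(f n).2, rfl⟩
    exact (Set.finite_iUnion fun s => hf ⟨l, s⟩).subset h1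
  have hc : ∀ l : ℕ, ∃ c : ℕ, ∀ n, (f n).1 = l → n < c := by
    intro l
    obtain ⟨c, hc⟩ := (hlev l).bddAbove
    exact ⟨c + 1, fun n hn => Nat.lt_succ_of_le (hc hn)⟩
  choose c hc using hc
  let q : ℕ → ℕ := fun l => Nat.rec 0 (fun l q => q + c l + 1) l
  have hq : ∀ l, q (l + 1) = q l + c l + 1 := fun l => rfl
  have hqmono : StrictMono q := strictMono_nat_of_lt_succ (fun l => by rw [hq]; omega)
  let pos : ℕ → ℕ := fun l => q l + c l
  have hposlt : ∀ l, pos l < q (l + 1) := fun l => by
    simp only [pos, hq]; omega
  have hposmono : StrictMono pos := strictMono_nat_of_lt_succ (fun l => by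
    have h1 := hposlt l
    have h2 : q (l + 1) ≤ pos (l + 1) := Nat.le_add_right _ _
    omega)
  let ext : TreeVertex → (ℕ → Bool) := fun v j => if h : j < v.1 then v.2 ⟨j, h⟩ else false
  let g : ℕ → TreeVertex := fun n => ⟨q (f n).1 + n, fun i => star pos (ext (f n)) i⟩
  refine ⟨g, star pos, ?_, star_injective hposmono.injective, ?_⟩
  · intro m n h
    have h1 : q (f m).1 + m = q (f n).1 + n := congrArg Sigma.fst h
    have hm := hc _ m rfl
    have hn := hc _ n rfl
    rcases lt_trichotomy (f m).1 (f n).1 with h2 | h2 | h2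
    · have h3 : q ((f m).1 + 1) ≤ q (f n).1 := hqmono.monotone h2
      rw [hq] at h3
      omega
    · rw [h2] at h1; omega
    · have h3 : q ((f n).1 + 1) ≤ q (f m).1 := hqmono.monotone h2
      rw [hq] at h3
      omega
  · intro r n h i
    change star pos (ext (f n)) i = star pos r i
    by_cases hi : ∃ j, (i : ℕ) = pos j
    · obtain ⟨j, hj⟩ := hi
      rw [hj, star_pos hposmono.injective, star_pos hposmono.injective]
      have hj2 : j < (f n).1 := by
        have h1 : (i : ℕ) < q (f n).1 + n := i.2
        have h2 := hc _ n rfl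
        have h3 : pos j < pos (f n).1 := by
          rw [← hj]
          simp only [pos]
          omega
        exact hposmono.lt_iff_lt.mp h3
      simp only [ext]
      rw [dif_pos hj2]
      exact h ⟨j, hj2⟩
    · rw [star_not _ hi, star_not _ hi]

end Pool.Agent.H38.BT
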