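import Pool.Agent.H38.BT.Fwd
import Pool.Agent.H38.BT.Stretch

namespace Pool.Agent.H38.BT

open Cardinal Set

/-- `G`, with bipartition `(A, B)`, has a nonempty subgraph `H` (on a set `S` of vertices) which,
with the inherited bipartition, is an (aleph-zero, aleph-one)-graph, and which is of binary type,
that is, isomorphic to a subgraph of `rayGraph`. -/
def HasBinarySubgraph {V : Type} (G : SimpleGraph V) (A B : Set V) : Prop :=
  ∃ (S : Set V) (H : SimpleGraph S), S.Nonempty ∧ H ≤ G.induce S ∧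
    IsAlephGraph H {x | x.1 ∈ A} {x | x.1 ∈ B} ∧ H.IsContained rayGraph

theorem assemble {V : Type} {G : SimpleGraph V} {A B : Set V} (hG : IsAlephGraph G A B)
    (hB : B.Countable) {Ω : Type} (hΩ : #Ω = ℵ₁) (α : Ω → V) (hα : Function.Injective α)
    (hαA : ∀ ξ, α ξ ∈ A) (N : Ω → Set V) (hN : ∀ ξ, N ξ ⊆ G.neighborSet (α ξ))
    (hNinf : ∀ ξ, (N ξ).Infinite) (ρ : Ω → (ℕ → Bool)) (hρ : Function.Injective ρ)
    (g : V → TreeVertex) (hg : Set.InjOn g B) (hon : ∀ ξ, ∀ b ∈ N ξ, OnRay (ρ ξ) (g b)) :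
    HasBinarySubgraph G A B := by
  classical
  have hNB : ∀ ξ, N ξ ⊆ B := fun ξ b hb => hG.memB (hαA ξ) (hN ξ hb)
  let B1 : Set V := {b | b ∈ B ∧ ¬ {ξ | b ∈ N ξ}.Countable}
  let Ω1 : Set Ω := {ξ | N ξ ⊆ B1}
  have hB1B : B1 ⊆ B := fun b hb => hb.1
  have hΩ1 : (Ω1ᶜ).Countable := by
    have h1 : Ω1ᶜ ⊆ ⋃ b ∈ {b | b ∈ B ∧ {ξ | b ∈ N ξ}.Countable}, {ξ | b ∈ N ξ} := by
      intro ξ hξ
      have h2 : ¬ N ξ ⊆ B1 := hξ
      rw [Set.not_subset] at h2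
      obtain ⟨b, hb1, hb2⟩ := h2
      simp only [Set.mem_iUnion]
      refine ⟨b, ⟨hNB ξ hb1, ?_⟩, hb1⟩
      by_contra h3
      exact hb2 ⟨hNB ξ hb1, h3⟩
    refine Set.Countable.mono h1 (Set.Countable.biUnion (hB.mono fun b hb => hb.1) ?_)
    intro b hb
    exact hb.2
  have hΩunc : ¬ (Set.univ : Set Ω).Countable := by
    intro h
    have := Cardinal.le_aleph0_iff_set_countable.mpr h
    rw [Cardinal.mk_univ, hΩ] at this
    exact absurd this (not_le.mpr Cardinal.aleph0_lt_aleph_one)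
  let S : Set V := α '' Ω1 ∪ B1
  have hS1 : ∀ ξ ∈ Ω1, α ξ ∈ S := fun ξ hξ => Or.inl ⟨ξ, hξ, rfl⟩
  have hS2 : ∀ b ∈ B1, b ∈ S := fun b hb => Or.inr hb
  have hSA : ∀ x ∈ S, x ∈ A → ∃ ξ ∈ Ω1, α ξ = x := by
    rintro x (hx | hx) hxA
    · exact hx
    · exact absurd hxA (hG.notMemA hx.1)
  have hSB : ∀ x ∈ S, x ∈ B → x ∈ B1 := by
    rintro x (⟨ξ, _, rfl⟩ | hx) hxB
    · exact absurd (hαA ξ) (hG.notMemA hxB)
    · exact hx
  let H : SimpleGraph S :=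
    { Adj := fun x y => (∃ ξ ∈ Ω1, x.1 = α ξ ∧ y.1 ∈ N ξ) ∨ (∃ ξ ∈ Ω1, y.1 = α ξ ∧ x.1 ∈ N ξ)
      symm := by
        constructor
        rintro x y (h | h)
        · exact Or.inr h
        · exact Or.inl h
      loopless := by
        constructor
        rintro x (⟨ξ, _, h1, h2⟩ | ⟨ξ, _, h1, h2⟩)
        · have := hN ξ h2
          rw [h1] at this
          exact (this : G.Adj _ _).ne rfl
        · have := hN ξ h2
          rw [h1] at this
          exact (this : G.Adj _ _).ne rfl }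
  have hHG : H ≤ G.induce S := by
    rintro x y (⟨ξ, _, h1, h2⟩ | ⟨ξ, _, h1, h2⟩)
    · have h3 : G.Adj (α ξ) y.1 := hN ξ h2
      rw [← h1] at h3
      exact h3
    · have h3 : G.Adj (α ξ) x.1 := hN ξ h2
      rw [← h1] at h3
      exact h3.symm
  have hAdjA : ∀ (x y : S) (ξ : Ω), x.1 = α ξ → ξ ∈ Ω1 → (H.Adj x y ↔ y.1 ∈ N ξ) := by
    intro x y ξ hx hξ
    constructor
    · rintro (⟨η, _, h1, h2⟩ | ⟨η, _, h1, h2⟩)
      · have : ξ = η := hα (hx.symm.trans h1)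
        rw [this]; exact h2
      · exfalso
        have h3 : x.1 ∈ B := hNB η h2
        rw [hx] at h3
        exact hG.notMemA h3 (hαA ξ)
    · intro h
      exact Or.inl ⟨ξ, hξ, hx, h⟩
  refine ⟨S, H, ?_, hHG, ⟨?_, ?_, ?_, ?_, ?_⟩, ?_⟩
  · by_contra hne
    apply hΩunc
    have h1 : (Set.univ : Set Ω) ⊆ Ω1ᶜ := by
      intro ξ _ hξ
      exact hne ⟨α ξ, hS1 ξ hξ⟩
    exact hΩ1.mono h1
  · rw [Set.disjoint_left]
    intro x hx1 hx2
    exact hG.notMemA hx2 hx1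
  · ext x
    have := hG.union.symm ▸ Set.mem_univ x.1
    simp only [Set.mem_union, Set.mem_univ, iff_true]
    exact this
  · intro x y hxy
    exact hG.bip x.1 y.1 (hHG hxy)
  · rintro x hx
    obtain ⟨ξ, hξ, hxξ⟩ := hSA x.1 x.2 hx
    have h1 : Subtype.val '' (H.neighborSet x) = N ξ := by
      ext y
      constructor
      · rintro ⟨y', hy', rfl⟩
        exact (hAdjA x y' ξ hxξ.symm hξ).mp hy'
      · intro hy
        exact ⟨⟨y, hS2 y (hξ hy)⟩, (hAdjA x ⟨y, hS2 y (hξ hy)⟩ ξ hxξ.symm hξ).mpr hy, rfl⟩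
    rw [← Cardinal.mk_image_eq Subtype.val_injective, h1]
    have h2 : Countable (N ξ) := (hB.mono (hNB ξ)).to_subtype
    have h3 : Infinite (N ξ) := Set.infinite_coe_iff.mpr (hNinf ξ)
    exact Cardinal.mk_eq_aleph0 _
  · rintro x hx
    have hx1 : x.1 ∈ B1 := hSB x.1 x.2 hx
    have h1 : Subtype.val '' (H.neighborSet x) = α '' {ξ | ξ ∈ Ω1 ∧ x.1 ∈ N ξ} := by
      ext y
      constructor
      · rintro ⟨y', hy', rfl⟩
        rcases hy' with ⟨ξ, _, h2, _⟩ | ⟨ξ, hξ, h2, h3⟩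
        · exfalso
          have h4 : x.1 ∈ A := h2 ▸ hαA ξ
          exact hG.notMemA hx h4
        · exact ⟨ξ, ⟨hξ, h3⟩, h2.symm⟩
      · rintro ⟨ξ, ⟨hξ, h3⟩, rfl⟩
        exact ⟨⟨α ξ, hS1 ξ hξ⟩, Or.inr ⟨ξ, hξ, rfl, h3⟩, rfl⟩
    rw [← Cardinal.mk_image_eq Subtype.val_injective, h1, Cardinal.mk_image_eq hα]
    refine le_antisymm ?_ ?_
    · rw [← hΩ]; exact Cardinal.mk_set_le _
    · rw [Cardinal.aleph_one_le_iff, ← not_le, Cardinal.le_aleph0_iff_set_countable]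
      intro h2
      apply hx1.2
      refine (h2.union hΩ1).mono ?_
      intro ξ hξ
      by_cases h3 : ξ ∈ Ω1
      · exact Or.inl ⟨h3, hξ⟩
      · exact Or.inr h3
  · have hex : ∀ x : S, x.1 ∈ A → ∃ ξ, ξ ∈ Ω1 ∧ α ξ = x.1 := fun x hx => hSA x.1 x.2 hx
    let φ : S → (ℕ → Bool) ⊕ TreeVertex := fun x =>
      if h : x.1 ∈ A then Sum.inl (ρ (hex x h).choose) else Sum.inr (g x.1)
    have hφA : ∀ (x : S) (ξ : Ω), x.1 = α ξ → φ x = Sum.inl (ρ ξ) := by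
      intro x ξ hx
      have h : x.1 ∈ A := hx ▸ hαA ξ
      have h1 : φ x = Sum.inl (ρ (hex x h).choose) := dif_pos h
      rw [h1]
      have h2 := hα ((hex x h).choose_spec.2.trans hx)
      rw [h2]
    have hφB : ∀ x : S, x.1 ∉ A → φ x = Sum.inr (g x.1) := fun x h => dif_neg h
    have hBof : ∀ x : V, x ∉ A → x ∈ B := by
      intro x hx
      have := hG.union.symm ▸ Set.mem_univ x
      exact this.resolve_left hx
    have hφinj : Function.Injective φ := by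
      intro x y hxy
      by_cases hx : x.1 ∈ A
      · obtain ⟨ξ, _, hξ⟩ := hSA x.1 x.2 hx
        by_cases hy : y.1 ∈ A
        · obtain ⟨η, _, hη⟩ := hSA y.1 y.2 hy
          rw [hφA x ξ hξ.symm, hφA y η hη.symm] at hxy
          have h1 := hρ (Sum.inl_injective hxy)
          apply Subtype.ext
          rw [← hξ, ← hη, h1]
        · rw [hφA x ξ hξ.symm, hφB y hy] at hxy
          cases hxy
      · by_cases hy : y.1 ∈ A
        · obtain ⟨η, _, hη⟩ := hSA y.1 y.2 hy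
          rw [hφB x hx, hφA y η hη.symm] at hxy
          cases hxy
        · rw [hφB x hx, hφB y hy] at hxy
          exact Subtype.ext (hg (hBof x.1 hx) (hBof y.1 hy) (Sum.inr_injective hxy))
    have hhom1 : ∀ {x y : S} (ξ : Ω), x.1 = α ξ → y.1 ∈ N ξ → rayGraph.Adj (φ x) (φ y) := by
      intro x y ξ hx hy
      have hyA : y.1 ∉ A := hG.notMemA (hNB ξ hy)
      exact Or.inl ⟨ρ ξ, g y.1, hφA x ξ hx, hφB y hyA, hon ξ y.1 hy⟩
    have hhom : ∀ {x y : S}, H.Adj x y → rayGraph.Adj (φ x) (φ y) := by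
      rintro x y (⟨ξ, _, h1, h2⟩ | ⟨ξ, _, h1, h2⟩)
      · exact hhom1 ξ h1 h2
      · exact (hhom1 ξ h1 h2).symm
    exact ⟨⟨⟨φ, hhom⟩, hφinj⟩⟩

end Pool.Agent.H38.BT
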