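import Pool.Agent.H38.BT.Defs

namespace Pool.Agent.H38.BT

open Cardinal Set

/-- The bipartite graph on a disjoint sum given by a relation. -/
def bipGraph {α β : Type} (P : α → β → Prop) : SimpleGraph (α ⊕ β) where
  Adj x y := (∃ a b, x = Sum.inl a ∧ y = Sum.inr b ∧ P a b) ∨
    (∃ a b, x = Sum.inr b ∧ y = Sum.inl a ∧ P a b)
  symm := by
    constructor
    rintro x y (⟨a, b, hx, hy, h⟩ | ⟨a, b, hx, hy, h⟩)
    · exact Or.inr ⟨a, b, hy, hx, h⟩
    · exact Or.inl ⟨a, b, hy, hx, h⟩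
  loopless := by
    constructor
    rintro x (⟨a, b, hx, hy, h⟩ | ⟨a, b, hx, hy, h⟩)
    · rw [hx] at hy; cases hy
    · rw [hx] at hy; cases hy

theorem bipGraph_adj {α β : Type} (P : α → β → Prop) (a : α) (b : β) :
    (bipGraph P).Adj (Sum.inl a) (Sum.inr b) ↔ P a b := by
  constructor
  · rintro (⟨a', b', hx, hy, h⟩ | ⟨a', b', hx, hy, h⟩)
    · rw [Sum.inl_injective hx, Sum.inr_injective hy]; exact h
    · cases hx
  · intro h
    exact Or.inl ⟨a, b, rfl, rfl, h⟩

theorem bipGraph_not_inl {α β : Type} (P : α → β → Prop) (a a' : α) :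
    ¬ (bipGraph P).Adj (Sum.inl a) (Sum.inl a') := by
  rintro (⟨_, _, hx, hy, h⟩ | ⟨_, _, hx, hy, h⟩)
  · cases hy
  · cases hx

theorem bipGraph_not_inr {α β : Type} (P : α → β → Prop) (b b' : β) :
    ¬ (bipGraph P).Adj (Sum.inr b) (Sum.inr b') := by
  rintro (⟨_, _, hx, hy, h⟩ | ⟨_, _, hx, hy, h⟩)
  · cases hx
  · cases hy

theorem isAlephGraph_bipGraph {α β : Type} (P : α → β → Prop)
    (hA : ∀ a, #{b | P a b} = ℵ₀) (hB : ∀ b, #{a | P a b} = ℵ₁) :
    IsAlephGraph (bipGraph P) (Set.range Sum.inl) (Set.range Sum.inr) := by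
  refine ⟨?_, ?_, ?_, ?_, ?_⟩
  · rw [Set.disjoint_left]
    rintro _ ⟨a, rfl⟩ ⟨b, hb⟩
    cases hb
  · ext x
    rcases x with a | b
    · simp
    · simp
  · rintro x y (⟨a, b, rfl, rfl, h⟩ | ⟨a, b, rfl, rfl, h⟩)
    · exact Or.inl ⟨⟨a, rfl⟩, ⟨b, rfl⟩⟩
    · exact Or.inr ⟨⟨b, rfl⟩, ⟨a, rfl⟩⟩
  · rintro _ ⟨p, rfl⟩
    have h1 : (bipGraph P).neighborSet (Sum.inl p) = Sum.inr '' {n | P p n} := by
      ext x
      rcases x with a | n
      · constructor
        · intro h; exact absurd h (bipGraph_not_inl P p a)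
        · rintro ⟨n, _, hn⟩; cases hn
      · constructor
        · intro h; exact ⟨n, (bipGraph_adj P p n).mp h, rfl⟩
        · rintro ⟨m, hm, h⟩
          rw [← Sum.inr_injective h]
          exact (bipGraph_adj P p m).mpr hm
    rw [h1, Cardinal.mk_image_eq Sum.inr_injective]
    exact hA p
  · rintro _ ⟨n, rfl⟩
    have h1 : (bipGraph P).neighborSet (Sum.inr n) = Sum.inl '' {p | P p n} := by
      ext x
      rcases x with a | m
      · constructor
        · intro h; exact ⟨a, (bipGraph_adj P a n).mp (SimpleGraph.Adj.symm h), rfl⟩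
        · rintro ⟨m, hm, h⟩
          rw [← Sum.inl_injective h]
          exact ((bipGraph_adj P m n).mpr hm).symm
      · constructor
        · intro h; exact absurd h (bipGraph_not_inr P n m)
        · rintro ⟨a, _, ha⟩; cases ha
    rw [h1, Cardinal.mk_image_eq Sum.inl_injective]
    exact hB n

end Pool.Agent.H38.BT
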