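import Pool.Agent.H38.BT.Bip

namespace Pool.Agent.H38.BT

open Cardinal Set

/-- The index of the interval containing a number. -/
theorem exists_blk {m : ℕ → ℕ} (hm : StrictMono m) (hm0 : m 0 = 0) :
    ∃ blk : ℕ → ℕ, ∀ y k, blk y = k ↔ (m k ≤ y ∧ y < m (k + 1)) := by
  have hblk : ∀ n, ∃ k, m k ≤ n ∧ n < m (k + 1) := by
    intro n
    refine ⟨Nat.findGreatest (fun k => m k ≤ n) n, ?_, ?_⟩
    · exact Nat.findGreatest_spec (P := fun k => m k ≤ n) (m := 0) (Nat.zero_le _)
        (by rw [hm0]; exact Nat.zero_le _)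
    · by_contra hcon
      have h1 := not_lt.mp hcon
      have h2 : Nat.findGreatest (fun k => m k ≤ n) n + 1 ≤ n := (hm.id_le _).trans h1
      have h3 := Nat.le_findGreatest (P := fun k => m k ≤ n) h2 h1
      omega
  choose blk h1 h2 using hblk
  refine ⟨blk, ?_⟩
  intro y k
  constructor
  · rintro rfl
    exact ⟨h1 y, h2 y⟩
  · rintro ⟨h3, h4⟩
    have h5 := h1 y
    have h6 := h2 y
    rcases lt_trichotomy (blk y) k with h | h | h
    · have := hm.monotone (show blk y + 1 ≤ k from h)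
      omega
    · exact h
    · have := hm.monotone (show k + 1 ≤ blk y from h)
      omega

theorem IsAlephGraph.not_countable {V : Type} {G : SimpleGraph V} {A B : Set V}
    (hG : IsAlephGraph G A B) [hne : Nonempty V] : ¬ A.Countable := by
  intro h
  obtain ⟨v⟩ := hne
  have hb : ∃ b, b ∈ B := by
    have h1 := hG.union.symm ▸ Set.mem_univ v
    rcases h1 with h1 | h1
    · have h2 : (G.neighborSet v).Nonempty := by
        rw [Set.nonempty_iff_ne_empty]
        intro h3
        have h4 := hG.degA v h1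
        rw [h3] at h4
        simp at h4
        exact absurd h4.symm Cardinal.aleph0_ne_zero
      obtain ⟨b, hb⟩ := h2
      rcases hG.bip v b hb with h3 | h3
      · exact ⟨b, h3.2⟩
      · exact absurd h3.1 (Set.disjoint_left.mp hG.disj h1)
    · exact ⟨v, h1⟩
  obtain ⟨b, hb⟩ := hb
  have h1 : G.neighborSet b ⊆ A := by
    intro a ha
    rcases hG.bip b a ha with h3 | h3
    · exact absurd hb (Set.disjoint_left.mp hG.disj h3.1)
    · exact h3.2
  have h2 := Cardinal.le_aleph0_iff_set_countable.mpr (h.mono h1)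
  rw [hG.degB b hb] at h2
  exact absurd h2 (not_le.mpr Cardinal.aleph0_lt_aleph_one)

theorem uncountable_of_induce {α β : Type} {P : α → β → Prop} {A₀ B₀ : Set (α ⊕ β)}
    (hne : (A₀ ∪ B₀).Nonempty)
    (h : IsAlephGraph ((bipGraph P).induce (A₀ ∪ B₀)) {x | x.1 ∈ A₀} {x | x.1 ∈ B₀}) :
    ¬ A₀.Countable := by
  have : Nonempty (A₀ ∪ B₀ : Set (α ⊕ β)) := hne.to_subtype
  intro hc
  exact h.not_countable (hc.preimage Subtype.val_injective)

theorem infinite_of_induce {α β : Type} {P : α → β → Prop} {A₀ B₀ : Set (α ⊕ β)}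
    (h : IsAlephGraph ((bipGraph P).induce (A₀ ∪ B₀)) {x | x.1 ∈ A₀} {x | x.1 ∈ B₀})
    {a : α} (ha : Sum.inl a ∈ A₀) : {k | Sum.inr k ∈ B₀ ∧ P a k}.Infinite := by
  intro hfin
  have h1 := h.degA ⟨Sum.inl a, Or.inl ha⟩ ha
  have h2 : (((bipGraph P).induce (A₀ ∪ B₀)).neighborSet ⟨Sum.inl a, Or.inl ha⟩).Finite := by
    refine Set.Finite.of_finite_image ((hfin.image Sum.inr).subset ?_)
      Subtype.val_injective.injOn
    rintro _ ⟨⟨y, hy⟩, hadj, rfl⟩
    have hadj' : (bipGraph P).Adj (Sum.inl a) y := hadj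
    rcases y with a' | k
    · exact absurd hadj' (bipGraph_not_inl P a a')
    · refine ⟨k, ⟨?_, (bipGraph_adj P a k).mp hadj'⟩, rfl⟩
      rcases h.bip _ _ hadj with h3 | h3
      · exact h3.2
      · exact absurd h3.1 (Set.disjoint_left.mp h.disj ha)
  have h3 := Set.Finite.to_subtype h2
  have h4 := Cardinal.lt_aleph0_of_finite
    (((bipGraph P).induce (A₀ ∪ B₀)).neighborSet ⟨Sum.inl a, Or.inl ha⟩)
  rw [h1] at h4
  exact lt_irrefl _ h4

end Pool.Agent.H38.BT
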