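import Pool.Agent.H38.BT.DomMain

namespace Pool.Agent.H38.BT

open Cardinal Set

theorem aleph_one_le_dominatingNumber : ℵ₁ ≤ dominatingNumber := by
  by_contra hcon
  have h1 := not_le.mp hcon
  have hne : {κ | ∃ D : Set (ℕ → ℕ), (∀ g : ℕ → ℕ, ∃ f ∈ D, ∀ᶠ n in Filter.atTop, g n ≤ f n) ∧
      #D = κ}.Nonempty :=
    ⟨_, Set.univ, fun g => ⟨g, trivial, Filter.Eventually.of_forall fun n => le_rfl⟩, rfl⟩
  obtain ⟨D, hD, hDc⟩ := csInf_mem hne
  have h2 : #D ≤ ℵ₀ := by
    rw [hDc]
    exact Cardinal.lt_aleph_one_iff.mp h1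
  have h3 : D.Countable := Cardinal.le_aleph0_iff_set_countable.mp h2
  obtain ⟨f0, hf0, _⟩ := hD 0
  obtain ⟨f, hf⟩ := h3.exists_eq_range ⟨f0, hf0⟩
  let g : ℕ → ℕ := fun n => (Finset.range (n + 1)).sup (fun i => f i n) + 1
  obtain ⟨h, hh, hg⟩ := hD g
  rw [hf] at hh
  obtain ⟨i, rfl⟩ := hh
  rw [Filter.eventually_atTop] at hg
  obtain ⟨M, hM⟩ := hg
  have h4 := hM (max M i) (le_max_left _ _)
  have h5 : f i (max M i) ≤ (Finset.range (max M i + 1)).sup (fun j => f j (max M i)) :=
    Finset.le_sup (f := fun j => f j (max M i))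
      (Finset.mem_range.mpr (Nat.lt_succ_of_le (le_max_right _ _)))
  have h6 : (Finset.range (max M i + 1)).sup (fun j => f j (max M i)) + 1 ≤ f i (max M i) := h4
  omega

theorem aleph_one_le_reapingNumber : ℵ₁ ≤ reapingNumber := by
  by_contra hcon
  have h1 := not_le.mp hcon
  obtain ⟨R, hR, hRc⟩ := exists_isReaping
  have h2 : #R ≤ ℵ₀ := by
    rw [hRc]
    exact Cardinal.lt_aleph_one_iff.mp h1
  have h3 : R.Countable := Cardinal.le_aleph0_iff_set_countable.mp h2
  obtain ⟨S, hS⟩ := h3.exists_eq_range (reaping_nonempty_of_isReaping hR)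
  have hSinf : ∀ i, (S i).Infinite := fun i => hR.1 _ (hS ▸ ⟨i, rfl⟩)
  have hstep : ∀ (k n : ℕ), ∃ x y, x ∈ S (Nat.unpair k).1 ∧ y ∈ S (Nat.unpair k).1 ∧ n < x ∧
      x < y := by
    intro k n
    obtain ⟨x, hx, hnx⟩ := (hSinf (Nat.unpair k).1).exists_gt n
    obtain ⟨y, hy, hxy⟩ := (hSinf (Nat.unpair k).1).exists_gt x
    exact ⟨x, y, hx, hy, hnx, hxy⟩
  choose fx fy hx hy hlt1 hlt2 using hstep
  let z : ℕ → ℕ := fun k => Nat.rec 0 (fun k z => fy k z) k
  have hzs : ∀ k, z (k + 1) = fy k (z k) := fun k => rfl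
  have hz : StrictMono z := strictMono_nat_of_lt_succ (fun k => by
    rw [hzs]; exact (hlt1 k (z k)).trans (hlt2 k (z k)))
  obtain ⟨N, hN, hns⟩ := hR.2 (Set.range (fun k => fx k (z k)))
  apply hns
  rw [hS] at hN
  obtain ⟨i, rfl⟩ := hN
  have hpair : ∀ j, (Nat.unpair (Nat.pair i j)).1 = i := fun j => by rw [Nat.unpair_pair]
  have hinj : Function.Injective (fun j => Nat.pair i j) := by
    intro j j' h
    have h4 := congrArg Nat.unpair h
    simp only [Nat.unpair_pair] at h4
    exact congrArg Prod.snd h4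
  have hxmono : StrictMono (fun k => fx k (z k)) := by
    apply strictMono_nat_of_lt_succ
    intro k
    have h4 := hlt2 k (z k)
    have h5 := hlt1 (k + 1) (z (k + 1))
    have h6 := hzs k
    omega
  constructor
  · have h4 : (Set.range (fun j => fx (Nat.pair i j) (z (Nat.pair i j)))).Infinite :=
      Set.infinite_range_of_injective (fun j j' h => hinj (hxmono.injective h))
    refine h4.mono ?_
    rintro _ ⟨j, rfl⟩
    refine ⟨?_, ⟨Nat.pair i j, rfl⟩⟩
    have h5 := hx (Nat.pair i j) (z (Nat.pair i j))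
    rw [hpair] at h5
    exact h5
  · have hymono : StrictMono (fun k => fy k (z k)) := by
      apply strictMono_nat_of_lt_succ
      intro k
      have h4 := hlt1 (k + 1) (z (k + 1))
      have h5 := hlt2 (k + 1) (z (k + 1))
      have h6 := hzs k
      omega
    have h4 : (Set.range (fun j => fy (Nat.pair i j) (z (Nat.pair i j)))).Infinite :=
      Set.infinite_range_of_injective (fun j j' h => hinj (hymono.injective h))
    refine h4.mono ?_
    rintro _ ⟨j, rfl⟩
    refine ⟨?_, ?_⟩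
    · have h5 := hy (Nat.pair i j) (z (Nat.pair i j))
      rw [hpair] at h5
      exact h5
    · rintro ⟨k, hk⟩
      have hk' : fx k (z k) = fy (Nat.pair i j) (z (Nat.pair i j)) := hk
      rcases lt_trichotomy k (Nat.pair i j) with h | h | h
      · have h5 := hxmono h
        have h6 := hlt2 (Nat.pair i j) (z (Nat.pair i j))
        simp only at h5
        omega
      · rw [h] at hk'
        have h6 := hlt2 (Nat.pair i j) (z (Nat.pair i j))
        omega
      · have h5 : z (Nat.pair i j + 1) ≤ z k := hz.monotone h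
        have h6 := hlt1 k (z k)
        rw [hzs] at h5
        omega

end Pool.Agent.H38.BT
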