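import Pool.Agent.H38.BT.Fwd
import Pool.Agent.H38.BT.Bip

namespace Pool.Agent.H38.BT

open Cardinal Set

/-- The bit of a tree vertex at a coordinate. -/
def bit (v : TreeVertex) (i : ℕ) : Bool := if h : i < v.1 then v.2 ⟨i, h⟩ else false

theorem bit_eq {r : ℕ → Bool} {v : TreeVertex} (h : OnRay r v) {i : ℕ} (hi : i < v.1) :
    bit v i = r i := by
  unfold bit
  rw [dif_pos hi]
  exact h ⟨i, hi⟩

theorem low_finite (i : ℕ) : {v : TreeVertex | v.1 ≤ i}.Finite := by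
  refine ((Set.finite_Iic i).biUnion (fun m _ => Set.finite_range (Sigma.mk m))).subset ?_
  intro v hv
  simp only [Set.mem_iUnion]
  exact ⟨v.1, hv, v.2, rfl⟩

theorem degB_bip {R : Set (Set ℕ)} (hR : #R ≤ ℵ₁) (hne : R.Nonempty) {Ω : Type}
    (hΩ : #Ω = ℵ₁) (P : (R × Ω × ℕ) → ℕ → Prop) (hP : ∀ p, P p p.2.2) (n : ℕ) :
    #((bipGraph P).neighborSet (Sum.inr n)) = ℵ₁ := by
  refine le_antisymm ?_ ?_
  · have h1 : (bipGraph P).neighborSet (Sum.inr n) ⊆ Sum.inl '' Set.univ := by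
      intro x hx
      rcases x with a | m
      · exact ⟨a, trivial, rfl⟩
      · exact absurd hx (bipGraph_not_inr P n m)
    refine (Cardinal.mk_le_mk_of_subset h1).trans ?_
    rw [Cardinal.mk_image_eq Sum.inl_injective, Cardinal.mk_univ]
    simp only [Cardinal.mk_prod, Cardinal.lift_id, hΩ, Cardinal.mk_nat]
    have h2 : (ℵ₀ : Cardinal.{0}) ≤ ℵ₁ := Cardinal.aleph0_le_aleph 1
    calc #R * (ℵ₁ * ℵ₀) ≤ ℵ₁ * (ℵ₁ * ℵ₁) := mul_le_mul' hR (mul_le_mul' le_rfl h2)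
      _ = ℵ₁ := by rw [Cardinal.mul_eq_self h2, Cardinal.mul_eq_self h2]
  · obtain ⟨N, hN⟩ := hne
    rw [← hΩ]
    refine Cardinal.mk_le_of_injective (f := fun ξ => (⟨Sum.inl (⟨N, hN⟩, ξ, n),
      ((bipGraph_adj P (⟨N, hN⟩, ξ, n) n).mpr (hP _)).symm⟩ :
      (bipGraph P).neighborSet (Sum.inr n))) ?_
    intro ξ η h
    have h1 := Sum.inl_injective (congrArg Subtype.val h)
    exact congrArg (fun q => q.2.1) h1

theorem isStarFactor_bip {R : Set (Set ℕ)} (hR : #R ≤ ℵ₁) (hne : R.Nonempty) {Ω : Type}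
    (hΩ : #Ω = ℵ₁) (P : (R × Ω × ℕ) → ℕ → Prop) (hP : ∀ p, P p p.2.2) :
    IsStarFactor (bipGraph P) (Set.range Sum.inl) (Set.range Sum.inr)
      (bipGraph (fun (p : R × Ω × ℕ) n => n = p.2.2)) := by
  refine ⟨?_, ?_, ?_⟩
  · rintro x y (⟨p, n, hx, hy, h⟩ | ⟨p, n, hx, hy, h⟩)
    · refine Or.inl ⟨p, n, hx, hy, ?_⟩
      rw [h]; exact hP p
    · refine Or.inr ⟨p, n, hx, hy, ?_⟩
      rw [h]; exact hP p
  · rintro _ ⟨p, rfl⟩
    refine ⟨Sum.inr p.2.2, (bipGraph_adj _ p p.2.2).mpr rfl, ?_⟩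
    intro y hy
    rcases y with a | n
    · exact absurd hy (bipGraph_not_inl _ p a)
    · have := (bipGraph_adj _ p n).mp hy
      rw [this]
  · rintro _ ⟨n, rfl⟩
    exact degB_bip hR hne hΩ (fun (p : R × Ω × ℕ) n => n = p.2.2) (fun _ => rfl) n

theorem isAlephGraph_bip {R : Set (Set ℕ)} (hR : #R ≤ ℵ₁) (hne : R.Nonempty) {Ω : Type}
    (hΩ : #Ω = ℵ₁) (P : (R × Ω × ℕ) → ℕ → Prop) (hinf : ∀ p, {n | P p n}.Infinite)
    (hP : ∀ p, P p p.2.2) :
    IsAlephGraph (bipGraph P) (Set.range Sum.inl) (Set.range Sum.inr) := by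
  refine ⟨?_, ?_, ?_, ?_, ?_⟩
  · rw [Set.disjoint_left]
    rintro _ ⟨a, rfl⟩ ⟨b, hb⟩
    cases hb
  · ext x
    rcases x with a | b
    · simp
    · simp
  · rintro x y (⟨a, b, rfl, rfl, h⟩ | ⟨a, b, rfl, rfl, h⟩)
    · exact Or.inl ⟨⟨a, rfl⟩, ⟨b, rfl⟩⟩
    · exact Or.inr ⟨⟨b, rfl⟩, ⟨a, rfl⟩⟩
  · rintro _ ⟨p, rfl⟩
    have h1 : (bipGraph P).neighborSet (Sum.inl p) = Sum.inr '' {n | P p n} := by
      ext x
      rcases x with a | n
      · constructor
        · intro h; exact absurd h (bipGraph_not_inl P p a)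
        · rintro ⟨n, _, hn⟩; cases hn
      · constructor
        · intro h; exact ⟨n, (bipGraph_adj P p n).mp h, rfl⟩
        · rintro ⟨m, hm, h⟩
          rw [← Sum.inr_injective h]
          exact (bipGraph_adj P p m).mpr hm
    rw [h1, Cardinal.mk_image_eq Sum.inr_injective]
    have : Infinite {n | P p n} := Set.infinite_coe_iff.mpr (hinf p)
    exact Cardinal.mk_eq_aleph0 _
  · rintro _ ⟨n, rfl⟩
    exact degB_bip hR hne hΩ P hP n

theorem reaping_nonempty_of_isReaping {R : Set (Set ℕ)} (h : IsReaping R) : R.Nonempty := by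
  obtain ⟨N, hN, _⟩ := h.2 ∅
  exact ⟨N, hN⟩

theorem exists_isReaping : ∃ R : Set (Set ℕ), IsReaping R ∧ #R = reapingNumber := by
  have hne : {κ | ∃ R : Set (Set ℕ), IsReaping R ∧ #R = κ}.Nonempty := by
    refine ⟨_, {N : Set ℕ | N.Infinite}, ⟨fun N hN => hN, ?_⟩, rfl⟩
    intro X
    by_cases hX : X.Infinite
    · refine ⟨X, hX, fun h => h.2 ?_⟩
      simp
    · have hX2 : (Xᶜ).Infinite := (Set.not_infinite.mp hX).infinite_compl
      refine ⟨Xᶜ, hX2, fun h => h.1 ?_⟩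
      simp
  exact csInf_mem hne

/-- A copy of a spanning subgraph of binary type through a suitable star factor produces a single
splitting set. -/
theorem false_of_copy {R : Set (Set ℕ)} (hR : IsReaping R) {Ω : Type}
    (hΩ : #Ω = ℵ₁)
    (H : SimpleGraph ((R × Ω × ℕ) ⊕ ℕ))
    (hFH : bipGraph (fun (p : R × Ω × ℕ) n => n = p.2.2) ≤ H)
    (hHG : H ≤ bipGraph (fun (p : R × Ω × ℕ) n => n ∈ p.1.1 ∨ n = p.2.2))
    (hH : IsAlephGraph H (Set.range Sum.inl) (Set.range Sum.inr))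
    (hφ : H.IsContained rayGraph) : False := by
  obtain ⟨φ⟩ := hφ
  -- vertices of `B` go to tree vertices
  have hg : ∀ n : ℕ, ∃ v, φ (Sum.inr n) = Sum.inr v := by
    intro n
    rcases hv : φ (Sum.inr n) with r0 | v
    · exfalso
      have h1 : #(H.neighborSet (Sum.inr n)) ≤ #(rayGraph.neighborSet (φ (Sum.inr n))) :=
        Cardinal.mk_le_of_injective (φ.mapNeighborSet (Sum.inr n)).injective
      rw [hH.degB _ ⟨n, rfl⟩, hv] at h1
      have h2 : (rayGraph.neighborSet (Sum.inl r0)).Countable := by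
        refine (Set.countable_range (Sum.inr : TreeVertex → (ℕ → Bool) ⊕ TreeVertex)).mono ?_
        rintro x (⟨r, v, hx, hy, h⟩ | ⟨r, v, hx, hy, h⟩)
        · exact ⟨v, hy.symm⟩
        · cases hx
      have h3 := h1.trans (Cardinal.le_aleph0_iff_set_countable.mpr h2)
      exact absurd h3 (not_le.mpr Cardinal.aleph0_lt_aleph_one)
    · exact ⟨v, rfl⟩
  choose g hg using hg
  have hF : ∀ p : R × Ω × ℕ, H.Adj (Sum.inl p) (Sum.inr p.2.2) := fun p =>
    hFH ((bipGraph_adj _ p p.2.2).mpr rfl)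
  have hadj : ∀ {x y}, H.Adj x y → rayGraph.Adj (φ x) (φ y) := fun h => φ.toHom.map_adj h
  have hr : ∀ p : R × Ω × ℕ, ∃ r, φ (Sum.inl p) = Sum.inl r := by
    intro p
    have h1 := hadj (hF p)
    rw [hg] at h1
    rcases h1 with ⟨r, v, hx, _, _⟩ | ⟨r, v, _, hy, _⟩
    · exact ⟨r, hx⟩
    · cases hy
  choose r hr using hr
  have hginj : Function.Injective g := by
    intro m n hmn
    have h1 : φ (Sum.inr m) = φ (Sum.inr n) := by rw [hg, hg, hmn]
    exact Sum.inr_injective (φ.injective h1)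
  have hrinj : Function.Injective r := by
    intro p q hpq
    have h1 : φ (Sum.inl p) = φ (Sum.inl q) := by rw [hr, hr, hpq]
    exact Sum.inl_injective (φ.injective h1)
  have hon : ∀ (p : R × Ω × ℕ) (n : ℕ), H.Adj (Sum.inl p) (Sum.inr n) → OnRay (r p) (g n) := by
    intro p n h
    have h1 := hadj h
    rw [hr, hg] at h1
    rcases h1 with ⟨r', v, hx, hy, h2⟩ | ⟨r', v, hx, _, _⟩
    · rw [Sum.inl_injective hx, Sum.inr_injective hy]; exact h2
    · cases hx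
  -- infinitely many nodes of the ray in the neighbourhood, above every level
  have hmany : ∀ (p : R × Ω × ℕ) (i : ℕ),
      {n | n ∈ p.1.1 ∧ OnRay (r p) (g n) ∧ i < (g n).1}.Infinite := by
    intro p i
    have h1 : {n : ℕ | H.Adj (Sum.inl p) (Sum.inr n)}.Infinite := by
      intro hfin
      have h2 : (H.neighborSet (Sum.inl p)).Finite := by
        refine (hfin.image Sum.inr).subset ?_
        intro x hx
        rcases x with a | n
        · exact absurd (hHG hx) (bipGraph_not_inl _ p a)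
        · exact ⟨n, hx, rfl⟩
      exact (hH.nbhd_infinite (a := Sum.inl p) ⟨p, rfl⟩) h2
    have h2 : {n : ℕ | (g n).1 ≤ i}.Finite := (low_finite i).preimage hginj.injOn
    refine ((h1.sdiff h2).sdiff (Set.finite_singleton p.2.2)).mono ?_
    rintro n ⟨⟨hn1, hn2⟩, hn3⟩
    refine ⟨?_, hon p n hn1, ?_⟩
    · rcases (bipGraph_adj _ p n).mp (hHG hn1) with h | h
      · exact h
      · exact absurd h hn3
    · by_contra h; exact hn2 (not_lt.mp h)
  obtain ⟨N0, hN0⟩ := reaping_nonempty_of_isReaping hR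
  have hΩ2 : ∃ ξ η : Ω, ξ ≠ η := by
    have h1 : (1 : Cardinal.{0}) < #Ω := by
      rw [hΩ]
      exact lt_of_lt_of_le Cardinal.one_lt_aleph0 (Cardinal.aleph0_le_aleph 1)
    have := Cardinal.one_lt_iff_nontrivial.mp h1
    exact exists_pair_ne Ω
  obtain ⟨ξ, η, hξη⟩ := hΩ2
  have hne : r (⟨N0, hN0⟩, ξ, 0) ≠ r (⟨N0, hN0⟩, η, 0) := by
    intro h
    have h1 := hrinj h
    exact hξη (congrArg (fun q => q.2.1) h1)
  obtain ⟨i, hi⟩ := Function.ne_iff.mp hne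
  obtain ⟨n0, _, hn0, hl0⟩ := (hmany (⟨N0, hN0⟩, ξ, 0) i).nonempty
  obtain ⟨n1, _, hn1, hl1⟩ := (hmany (⟨N0, hN0⟩, η, 0) i).nonempty
  have hb : bit (g n0) i ≠ bit (g n1) i := by
    rw [bit_eq hn0 hl0, bit_eq hn1 hl1]; exact hi
  obtain ⟨N, hN, hns⟩ := hR.2 {n | i < (g n).1 ∧ bit (g n) i = bit (g n0) i}
  apply hns
  constructor
  · refine (hmany (⟨N, hN⟩, ξ, n0) i).mono ?_
    rintro n ⟨h1, h2, h3⟩
    refine ⟨h1, h3, ?_⟩
    rw [bit_eq h2 h3, bit_eq (hon _ _ (hF (⟨N, hN⟩, ξ, n0))) hl0]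
  · refine (hmany (⟨N, hN⟩, ξ, n1) i).mono ?_
    rintro n ⟨h1, h2, h3⟩
    refine ⟨h1, ?_⟩
    rintro ⟨_, h4⟩
    apply hb
    rw [← h4, bit_eq h2 h3]
    exact (bit_eq (hon _ _ (hF (⟨N, hN⟩, ξ, n1))) hl1).symm

end Pool.Agent.H38.BT
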