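import Pool.Agent.H38.BT.Sys
import Pool.Agent.H38.BT.Blk

namespace Pool.Agent.H38.BT

open Cardinal Set

namespace Sys

variable {V : Type} {G : SimpleGraph V} {A B : Set V} (s : Sys G A B)

/-- The vertices of `A` with a given end. -/
def A2 (x : ℕ → Bool) : Set V := {a | a ∈ s.A1 ∧ s.ray a = x}

theorem conn_A2 {x : ℕ → Bool} {a a' : V} (ha : a ∈ s.A2 x) (ha' : a' ∈ s.A2 x) {m : ℕ}
    {b b' : V} (hb : b ∈ s.N a) (hb' : b' ∈ s.N a') (h : m ≤ s.F b) (h' : m ≤ s.F b') :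
    Conn s.D (s.up m) b b' := by
  have hbB : b ∈ B := s.hNB ha.1.1 hb
  have h1 : s.ray a (Nat.pair m (s.e ⟨b, hbB⟩)) = true := by
    rw [ray_iff, Nat.unpair_pair]
    refine ⟨b, hb, h, ?_⟩
    have h2 : s.en (s.e ⟨b, hbB⟩) = b := by simp [en]
    rw [h2]
    exact Relation.ReflTransGen.refl
  rw [ha.2, ← ha'.2, ray_iff, Nat.unpair_pair] at h1
  obtain ⟨b0, hb0, hm0, h0⟩ := h1
  have h2 : s.en (s.e ⟨b, hbB⟩) = b := by simp [en]
  rw [h2] at h0
  exact h0.symm.trans (s.conn_up ha'.1 hb0 hb' hm0 h')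

/-- The elements of level in `[m, n)` which are chosen neighbours of vertices with a given end. -/
def U (x : ℕ → Bool) (m n : ℕ) : Set V := {b | (∃ a ∈ s.A2 x, b ∈ s.N a) ∧ m ≤ s.F b ∧ s.F b < n}

theorem U_subset (x : ℕ → Bool) (m n : ℕ) : s.U x m n ⊆ s.seg m n := by
  rintro b ⟨⟨a, ha, hb⟩, h1, h2⟩
  exact ⟨s.hNB ha.1.1 hb, h1, h2⟩

theorem seg_mono {m n n' : ℕ} (h : n ≤ n') : s.seg m n ⊆ s.seg m n' := by
  rintro b ⟨h1, h2, h3⟩
  exact ⟨h1, h2, lt_of_lt_of_le h3 h⟩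

theorem exists_next (x : ℕ → Bool) (m n : ℕ) : ∃ n', n < n' ∧
    ∀ b ∈ s.U x m n, ∀ b' ∈ s.U x m n, Conn s.D (s.seg m n') b b' := by
  classical
  have hfin : ((s.U x m n) ×ˢ (s.U x m n)).Finite :=
    ((s.seg_finite m n).subset (s.U_subset x m n)).prod
      ((s.seg_finite m n).subset (s.U_subset x m n))
  let ν : V × V → ℕ := fun p =>
    if h : ∃ n', Conn s.D (s.seg m n') p.1 p.2 then h.choose else 0
  obtain ⟨K, hK⟩ := (hfin.image ν).bddAbove
  refine ⟨max (n + 1) K, lt_max_of_lt_left (Nat.lt_succ_self n), ?_⟩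
  intro b hb b' hb'
  obtain ⟨⟨a, ha, hba⟩, h1, h2⟩ := hb
  obtain ⟨⟨a', ha', hba'⟩, h1', h2'⟩ := hb'
  have hex : ∃ n', Conn s.D (s.seg m n') b b' :=
    s.conn_bounded (s.conn_A2 ha ha' hba hba' h1 h1')
  have hν : ν (b, b') = hex.choose := dif_pos hex
  have h3 : ν (b, b') ≤ K := hK ⟨(b, b'), ⟨⟨⟨a, ha, hba⟩, h1, h2⟩, ⟨⟨a', ha', hba'⟩, h1', h2'⟩⟩, rfl⟩
  rw [hν] at h3
  exact Conn.mono (s.seg_mono (h3.trans (le_max_right _ _))) hex.choose_spec

theorem D_mem {b b' : V} (h : s.D.Adj b b') : b ∈ B ∧ b' ∈ B := by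
  have h1 : {a | a ∈ s.A' ∧ b ∈ s.N a ∧ b' ∈ s.N a}.Nonempty := by
    rw [Set.nonempty_iff_ne_empty]
    intro h2
    apply h.2
    rw [h2]
    exact Set.countable_empty
  obtain ⟨a, ha, hb, hb'⟩ := h1
  exact ⟨s.hNB ha hb, s.hNB ha hb'⟩

/-- Distinct connecting vertices for the edges of `D`. -/
theorem exists_connectors : ∃ c : {q : V × V // s.D.Adj q.1 q.2} → V, Function.Injective c ∧
    (Set.range c).Countable ∧ ∀ q, c q ∈ s.A' ∧ q.1.1 ∈ s.N (c q) ∧ q.1.2 ∈ s.N (c q) := by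
  have hcount : {q : V × V | s.D.Adj q.1 q.2}.Countable := by
    refine (s.hB.prod s.hB).mono ?_
    intro q hq
    exact s.D_mem hq
  have hc2 : Countable {q : V × V // s.D.Adj q.1 q.2} := hcount.to_subtype
  obtain ⟨c, hc, hc3⟩ := exists_transversal (ι := {q : V × V // s.D.Adj q.1 q.2}) (α := V)
    ((Cardinal.mk_le_aleph0).trans (Cardinal.aleph0_le_aleph 1))
    (fun q a => a ∈ s.A' ∧ q.1.1 ∈ s.N a ∧ q.1.2 ∈ s.N a) (by
    intro q C hC
    by_contra hcon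
    push Not at hcon
    apply q.2.2
    refine hC.mono ?_
    rintro a ⟨ha, hb, hb'⟩
    by_contra hac
    exact hcon a hac ha hb hb')
  exact ⟨c, hc, Set.countable_range c, hc3⟩

/-- If uncountably many vertices have the same end and the level function carries the system to an
ultrafilter, there is an indivisible minor. -/
theorem case_two (ultra : ∀ Y : Set ℕ, {a | a ∈ s.A' ∧ {b | b ∈ s.N a ∧ s.F b ∉ Y}.Infinite}.Countable ∨
      {a | a ∈ s.A' ∧ {b | b ∈ s.N a ∧ s.F b ∈ Y}.Infinite}.Countable)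
    (x : ℕ → Bool) (hx : ¬ (s.A2 x).Countable) : HasGoodMinor G := by
  classical
  choose nx hnx1 hnx2 using fun m n => s.exists_next x m n
  let sq : ℕ → ℕ × ℕ := fun k => Nat.rec (0, 1) (fun _ p => (p.2, nx p.1 p.2)) k
  let m : ℕ → ℕ := fun k => (sq k).1
  have hm1 : ∀ k, m (k + 1) = (sq k).2 := fun k => rfl
  have hm2 : ∀ k, m (k + 2) = nx (m k) (m (k + 1)) := fun k => rfl
  have hlt : ∀ k, m k < m (k + 1) := by
    intro k
    cases k with
    | zero => exact Nat.zero_lt_one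
    | succ k => rw [hm2]; exact hnx1 _ _
  have hm : StrictMono m := strictMono_nat_of_lt_succ hlt
  have hconn : ∀ k, ∀ b ∈ s.U x (m k) (m (k + 1)), ∀ b' ∈ s.U x (m k) (m (k + 1)),
      Conn s.D (s.seg (m k) (m (k + 2))) b b' := by
    intro k
    rw [hm2]
    exact hnx2 _ _
  obtain ⟨blk, hblk⟩ := exists_blk hm rfl
  -- the parity
  obtain ⟨p, hp2, hp⟩ : ∃ p : ℕ, p < 2 ∧
      {a | a ∈ s.A' ∧ {b | b ∈ s.N a ∧ blk (s.F b) % 2 ≠ p}.Infinite}.Countable := by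
    rcases ultra {y | blk y % 2 = 0} with h | h
    · exact ⟨0, by norm_num, h⟩
    · refine ⟨1, by norm_num, h.mono ?_⟩
      rintro a ⟨ha, hinf⟩
      refine ⟨ha, hinf.mono ?_⟩
      rintro b ⟨hb, hb2⟩
      refine ⟨hb, ?_⟩
      change blk (s.F b) % 2 = 0
      omega
  obtain ⟨c, hcinj, hcrange, hc⟩ := s.exists_connectors
  let A4 : Set V := {a | a ∈ s.A2 x ∧ a ∉ Set.range c ∧
    {b | b ∈ s.N a ∧ blk (s.F b) % 2 ≠ p}.Finite}
  have hA4 : ¬ A4.Countable := by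
    intro h
    apply hx
    refine ((h.union hcrange).union hp).mono ?_
    intro a ha
    by_cases h1 : a ∈ Set.range c
    · exact Or.inl (Or.inr h1)
    · by_cases h2 : {b | b ∈ s.N a ∧ blk (s.F b) % 2 ≠ p}.Finite
      · exact Or.inl (Or.inl ⟨ha, h1, h2⟩)
      · exact Or.inr ⟨ha.1.1, h2⟩
  let touch : V → ℕ → Prop := fun a k => ∃ b ∈ s.N a, blk (s.F b) = k
  let K' : Set ℕ := {k | k % 2 = p ∧ ¬ {a | a ∈ A4 ∧ touch a k}.Countable}
  let A5 : Set V := {a | a ∈ A4 ∧ ∀ k, k % 2 = p → touch a k → k ∈ K'}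
  have hA45 : (A4 \ A5).Countable := by
    have h1 : A4 \ A5 ⊆ ⋃ k ∈ {k : ℕ | {a | a ∈ A4 ∧ touch a k}.Countable},
        {a | a ∈ A4 ∧ touch a k} := by
      rintro a ⟨ha, ha2⟩
      have h2 : ¬ ∀ k, k % 2 = p → touch a k → k ∈ K' := fun h => ha2 ⟨ha, h⟩
      push Not at h2
      obtain ⟨k, hk1, hk2, hk3⟩ := h2
      simp only [Set.mem_iUnion]
      refine ⟨k, ?_, ha, hk2⟩
      by_contra h3
      exact hk3 ⟨hk1, h3⟩
    exact Set.Countable.mono h1 (Set.Countable.biUnion (Set.to_countable _) (fun k hk => hk))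
  have hA5sub : A5 ⊆ s.A' := fun a ha => ha.1.1.1.1
  have htouchU : ∀ a ∈ A5, ∀ b ∈ s.N a, b ∈ s.U x (m (blk (s.F b))) (m (blk (s.F b) + 1)) := by
    intro a ha b hb
    have h1 := (hblk (s.F b) (blk (s.F b))).mp rfl
    exact ⟨⟨a, ha.1.1, hb⟩, h1.1, h1.2⟩
  -- the branch sets
  let J : ℕ → Set V := fun k => {b | ∃ u ∈ s.U x (m k) (m (k + 1)),
    Conn s.D (s.seg (m k) (m (k + 2))) u b}
  have hmk2 : ∀ k, m (k + 1) ≤ m (k + 2) := fun k => (hlt (k + 1)).le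
  have hJseg : ∀ k, J k ⊆ s.seg (m k) (m (k + 2)) := by
    rintro k b ⟨u, hu, hub⟩
    exact hub.mem (s.seg_mono (hmk2 k) (s.U_subset x _ _ hu))
  let Vk : ℕ → Set V := fun k => J k ∪ {v | ∃ q : {q : V × V // s.D.Adj q.1 q.2},
    c q = v ∧ q.1.1 ∈ J k ∧ q.1.2 ∈ J k}
  have hJdisj : ∀ k k', k % 2 = p → k' % 2 = p → k ≠ k' → Disjoint (J k) (J k') := by
    have aux : ∀ k k', k % 2 = p → k' % 2 = p → k < k' → Disjoint (J k) (J k') := by
      intro k k' h1 h2 hkk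
      rw [Set.disjoint_left]
      intro b hb hb'
      have h3 := (hJseg k hb).2.2
      have h4 := (hJseg k' hb').2.1
      have h5 : m (k + 2) ≤ m k' := hm.monotone (show k + 2 ≤ k' by omega)
      omega
    intro k k' h1 h2 hkk
    rcases lt_or_gt_of_ne hkk with h | h
    · exact aux k k' h1 h2 h
    · exact (aux k' k h2 h1 h).symm
  have hJB : ∀ k, J k ⊆ B := fun k b hb => (hJseg k hb).1
  have hcA : ∀ q, c q ∈ A := fun q => s.hA' (hc q).1
  have hVdisj : ∀ k k', k % 2 = p → k' % 2 = p → k ≠ k' → Disjoint (Vk k) (Vk k') := by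
    intro k k' h1 h2 hkk
    rw [Set.disjoint_left]
    rintro v (hv | ⟨q, hq, hq1, hq2⟩) (hv' | ⟨q', hq', hq1', hq2'⟩)
    · exact Set.disjoint_left.mp (hJdisj k k' h1 h2 hkk) hv hv'
    · exact s.hG.notMemA (hJB k hv) (hq' ▸ hcA q')
    · exact s.hG.notMemA (hJB k' hv') (hq ▸ hcA q)
    · have h3 : q = q' := hcinj (hq.trans hq'.symm)
      subst h3
      exact Set.disjoint_left.mp (hJdisj k k' h1 h2 hkk) hq1 hq1'
  have hUJ : ∀ k, s.U x (m k) (m (k + 1)) ⊆ J k := fun k u hu => ⟨u, hu, Relation.ReflTransGen.refl⟩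
  have hVconn : ∀ k, (s.U x (m k) (m (k + 1))).Nonempty → (G.induce (Vk k)).Connected := by
    rintro k ⟨u0, hu0⟩
    have hu0V : u0 ∈ Vk k := Or.inl (hUJ k hu0)
    have key : ∀ b, Conn s.D (s.seg (m k) (m (k + 2))) u0 b → ∀ hb : b ∈ Vk k,
        (G.induce (Vk k)).Reachable ⟨u0, hu0V⟩ ⟨b, hb⟩ := by
      intro b h
      induction h with
      | refl => intro hb; exact SimpleGraph.Reachable.refl _
      | @tail y z h1 h2 ih =>
        intro hz
        have hy : y ∈ J k := ⟨u0, hu0, h1⟩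
        have hzJ : z ∈ J k := ⟨u0, hu0, Relation.ReflTransGen.tail h1 h2⟩
        have h3 := ih (Or.inl hy)
        let q : {q : V × V // s.D.Adj q.1 q.2} := ⟨(y, z), h2.1⟩
        have hqV : c q ∈ Vk k := Or.inr ⟨q, rfl, hy, hzJ⟩
        have h4 : (G.induce (Vk k)).Adj ⟨y, Or.inl hy⟩ ⟨c q, hqV⟩ :=
          (s.hN _ (hc q).1 (hc q).2.1 : G.Adj (c q) y).symm
        have h5 : (G.induce (Vk k)).Adj ⟨c q, hqV⟩ ⟨z, hz⟩ :=
          (s.hN _ (hc q).1 (hc q).2.2 : G.Adj (c q) z)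
        exact (h3.trans h4.reachable).trans h5.reachable
    have keyJ : ∀ b ∈ J k, Conn s.D (s.seg (m k) (m (k + 2))) u0 b := by
      rintro b ⟨u, hu, hub⟩
      exact (hconn k u0 hu0 u hu).trans hub
    rw [SimpleGraph.connected_iff_exists_forall_reachable]
    refine ⟨⟨u0, hu0V⟩, ?_⟩
    rintro ⟨v, hv | ⟨q, hq, hq1, hq2⟩⟩
    · exact key v (keyJ v hv) (Or.inl hv)
    · have h3 := key q.1.1 (keyJ _ hq1) (Or.inl hq1)
      have h4 : (G.induce (Vk k)).Adj ⟨q.1.1, Or.inl hq1⟩ ⟨v, Or.inr ⟨q, hq, hq1, hq2⟩⟩ := by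
        subst hq
        exact (s.hN _ (hc q).1 (hc q).2.1 : G.Adj (c q) q.1.1).symm
      exact h3.trans h4.reachable
  -- the minor
  let P : A5 → K' → Prop := fun a k => touch a.1 k.1
  have hinfA : ∀ a ∈ A5, ∀ S : Set ℕ, {b | b ∈ s.N a ∧ blk (s.F b) ∈ S ∧ blk (s.F b) % 2 = p}.Infinite →
      {k | k ∈ S ∧ k ∈ K' ∧ touch a k}.Infinite := by
    intro a ha S hinf hfin
    apply hinf
    have h1 : {b | b ∈ s.N a ∧ blk (s.F b) ∈ S ∧ blk (s.F b) % 2 = p} ⊆
        ⋃ k ∈ {k | k ∈ S ∧ k ∈ K' ∧ touch a k}, s.seg (m k) (m (k + 1)) := by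
      rintro b ⟨hb1, hb2, hb3⟩
      simp only [Set.mem_iUnion]
      have h2 : touch a (blk (s.F b)) := ⟨b, hb1, rfl⟩
      have h3 := (hblk (s.F b) (blk (s.F b))).mp rfl
      exact ⟨blk (s.F b), ⟨hb2, ha.2 _ hb3 h2, h2⟩, s.hNB (hA5sub ha) hb1, h3.1, h3.2⟩
    exact (hfin.biUnion (fun k _ => s.seg_finite _ _)).subset h1
  have hH : IsAlephGraph (bipGraph P) (Set.range Sum.inl) (Set.range Sum.inr) := by
    apply isAlephGraph_bipGraph
    · intro a
      have h1 : {b | b ∈ s.N a.1 ∧ blk (s.F b) ∈ Set.univ ∧ blk (s.F b) % 2 = p}.Infinite := by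
        intro hfin
        apply s.hNinf a.1 (hA5sub a.2)
        refine (hfin.union a.2.1.2.2).subset ?_
        intro b hb
        by_cases h : blk (s.F b) % 2 = p
        · exact Or.inl ⟨hb, trivial, h⟩
        · exact Or.inr ⟨hb, h⟩
      have h2 := hinfA a.1 a.2 Set.univ h1
      have h3 : {k : K' | P a k}.Infinite := by
        intro hfin
        apply h2
        refine (hfin.image Subtype.val).subset ?_
        rintro k ⟨_, hk1, hk2⟩
        exact ⟨⟨k, hk1⟩, hk2, rfl⟩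
      have h4 : Infinite {k : K' | P a k} := Set.infinite_coe_iff.mpr h3
      exact Cardinal.mk_eq_aleph0 _
    · intro k
      refine le_antisymm ?_ ?_
      · refine (Cardinal.mk_set_le _).trans ?_
        refine (Cardinal.mk_le_mk_of_subset (fun a ha => s.hA' (hA5sub ha))).trans ?_
        exact s.hG.mkA_le s.hB
      · rw [Cardinal.aleph_one_le_iff, ← not_le, Cardinal.le_aleph0_iff_set_countable]
        intro h1
        apply k.2.2
        refine ((h1.image Subtype.val).union hA45).mono ?_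
        rintro a ⟨ha1, ha2⟩
        by_cases h2 : a ∈ A5
        · exact Or.inl ⟨⟨a, h2⟩, ha2, rfl⟩
        · exact Or.inr ⟨ha1, h2⟩
  have hneA5 : A5.Nonempty := by
    rw [Set.nonempty_iff_ne_empty]
    intro h
    apply hA4
    rw [h, Set.sdiff_empty] at hA45
    exact hA45
  have hneW : Nonempty (A5 ⊕ K') := by
    obtain ⟨a, ha⟩ := hneA5
    exact ⟨Sum.inl ⟨a, ha⟩⟩
  have haV : ∀ a ∈ A5, ∀ k, a ∉ Vk k := by
    rintro a ha k (h | ⟨q, hq, _, _⟩)
    · exact s.hG.notMemA (hJB k h) (s.hA' (hA5sub ha))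
    · exact ha.1.2.1 ⟨q, hq⟩
  have hUne : ∀ k ∈ K', (s.U x (m k) (m (k + 1))).Nonempty := by
    intro k hk
    have h1 : {a | a ∈ A4 ∧ touch a k}.Nonempty := by
      rw [Set.nonempty_iff_ne_empty]
      intro h2
      apply hk.2
      rw [h2]
      exact Set.countable_empty
    obtain ⟨a, ha, b, hb, hbk⟩ := h1
    have h3 := (hblk (s.F b) k).mp hbk
    exact ⟨b, ⟨a, ha.1, hb⟩, h3.1, h3.2⟩
  refine ⟨A5 ⊕ K', bipGraph P, Set.range Sum.inl, Set.range Sum.inr, hneW, ?_, hH, Or.inl ?_⟩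
  · refine ⟨fun w => Sum.elim (fun a => {a.1}) (fun k => Vk k.1) w, ?_, ?_, ?_⟩
    · rintro (a | k)
      · exact connected_singleton G a.1
      · exact hVconn k.1 (hUne k.1 k.2)
    · rintro (a | k) (a' | k') hne
      · change Disjoint ({a.1} : Set V) {a'.1}
        rw [Set.disjoint_singleton]
        intro h
        exact hne (congrArg Sum.inl (Subtype.ext h))
      · change Disjoint ({a.1} : Set V) (Vk k'.1)
        rw [Set.disjoint_singleton_left]
        exact haV a.1 a.2 k'.1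
      · change Disjoint (Vk k.1) ({a'.1} : Set V)
        rw [Set.disjoint_singleton_right]
        exact haV a'.1 a'.2 k.1
      · change Disjoint (Vk k.1) (Vk k'.1)
        refine hVdisj _ _ k.2.1 k'.2.1 ?_
        intro h
        exact hne (congrArg Sum.inr (Subtype.ext h))
    · rintro _ _ (⟨a, k, rfl, rfl, b, hb, hbk⟩ | ⟨a, k, rfl, rfl, b, hb, hbk⟩)
      · have hbV : b ∈ Vk k.1 := by
          have := htouchU a.1 a.2 b hb
          rw [hbk] at this
          exact Or.inl (hUJ _ this)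
        exact ⟨a.1, rfl, b, hbV, s.hN a.1 (hA5sub a.2) hb⟩
      · have hbV : b ∈ Vk k.1 := by
          have := htouchU a.1 a.2 b hb
          rw [hbk] at this
          exact Or.inl (hUJ _ this)
        exact ⟨b, hbV, a.1, rfl, (s.hN a.1 (hA5sub a.2) hb : G.Adj a.1 b).symm⟩
  · rintro ⟨A₁, A₂, B₁, B₂, hA₁, hA₂, hB₁, hB₂, hdA, hdB, hne1, hne2, hI1, hI2⟩
    have hpick : ∀ (A₀ : Set (A5 ⊕ K')), A₀ ⊆ Set.range Sum.inl → ¬ A₀.Countable → ∀ C : Set V,
        C.Countable → ∃ a : A5, Sum.inl a ∈ A₀ ∧ a.1 ∉ C := by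
      intro A₀ hA₀ hunc C hC
      by_contra hcon
      push Not at hcon
      apply hunc
      have h1 : (Sum.inl '' (Subtype.val ⁻¹' C : Set A5) : Set (A5 ⊕ K')).Countable :=
        (hC.preimage Subtype.val_injective).image _
      refine h1.mono ?_
      intro w hw
      obtain ⟨a, rfl⟩ := hA₀ hw
      exact ⟨a, hcon a hw, rfl⟩
    let Y : Set ℕ := {y | ∃ hk : blk y ∈ K', Sum.inr ⟨blk y, hk⟩ ∈ B₁}
    have htrans : ∀ (a : A5) (S : Set ℕ) (B₀ : Set (A5 ⊕ K')),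
        {k | Sum.inr k ∈ B₀ ∧ P a k}.Infinite →
        (∀ (k : K') (y : ℕ), Sum.inr k ∈ B₀ → blk y = k.1 → y ∈ S) →
        {b | b ∈ s.N a.1 ∧ s.F b ∈ S}.Infinite := by
      intro a S B₀ hinf hS hfin
      apply hinf
      have h1 : (Subtype.val '' {k : K' | Sum.inr k ∈ B₀ ∧ P a k}) ⊆
          (fun b => blk (s.F b)) '' {b | b ∈ s.N a.1 ∧ s.F b ∈ S} := by
        rintro _ ⟨k, ⟨hk1, b, hb, hbk⟩, rfl⟩
        exact ⟨b, ⟨hb, hS k (s.F b) hk1 hbk⟩, hbk⟩
      exact Set.Finite.of_finite_image ((hfin.image _).subset h1) Subtype.val_injective.injOn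
    rcases ultra Y with h | h
    · obtain ⟨a, ha, haC⟩ := hpick A₂ hA₂ (uncountable_of_induce hne2 hI2) _ h
      apply haC
      refine ⟨hA5sub a.2, ?_⟩
      refine htrans a Yᶜ B₂ (infinite_of_induce hI2 ha) ?_
      rintro k y hk hy ⟨hk', hky⟩
      have h2 : (⟨blk y, hk'⟩ : K') = k := Subtype.ext hy
      rw [h2] at hky
      exact Set.disjoint_left.mp hdB hky hk
    · obtain ⟨a, ha, haC⟩ := hpick A₁ hA₁ (uncountable_of_induce hne1 hI1) _ h
      apply haC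
      refine ⟨hA5sub a.2, ?_⟩
      refine htrans a Y B₁ (infinite_of_induce hI1 ha) ?_
      intro k y hk hy
      have h2 : blk y ∈ K' := by rw [hy]; exact k.2
      refine ⟨h2, ?_⟩
      have h3 : (⟨blk y, h2⟩ : K') = k := Subtype.ext hy
      rw [h3]
      exact hk

/-- A system whose level function carries it to an ultrafilter gives a minor which is indivisible
or of binary type. -/
theorem good_of_ultra (ultra : ∀ Y : Set ℕ,
      {a | a ∈ s.A' ∧ {b | b ∈ s.N a ∧ s.F b ∉ Y}.Infinite}.Countable ∨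
      {a | a ∈ s.A' ∧ {b | b ∈ s.N a ∧ s.F b ∈ Y}.Infinite}.Countable) : HasGoodMinor G := by
  by_cases h : ∀ x, {a | a ∈ s.A1 ∧ s.ray a = x}.Countable
  · exact hasGoodMinor_of_binary (s.case_one h)
  · push Not at h
    obtain ⟨x, hx⟩ := h
    exact s.case_two ultra x hx

end Sys

end Pool.Agent.H38.BT
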