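import Pool.Agent.H38.BT.Defs

namespace Pool.Agent.H38.BT

open Cardinal Set

theorem lt_or_gt_of_ne_wo {ι : Type} (r : ι → ι → Prop) [IsWellOrder ι r] {i j : ι}
    (h : i ≠ j) : r i j ∨ r j i := by
  rcases trichotomous_of r i j with h1 | h1 | h1
  · exact Or.inl h1
  · exact absurd h1 h
  · exact Or.inr h1

/-- Injective choice along a family of at most aleph-one many requirements, each of which can be
met outside every countable set. -/
theorem exists_transversal {ι α : Type} (hι : #ι ≤ ℵ₁) (P : ι → α → Prop)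
    (h : ∀ i, ∀ C : Set α, C.Countable → ∃ x, x ∉ C ∧ P i x) :
    ∃ f : ι → α, Function.Injective f ∧ ∀ i, P i (f i) := by
  classical
  obtain ⟨r, wo, hr⟩ := Cardinal.exists_ord_eq ι
  have hcount : ∀ i, {j | r j i}.Countable := by
    intro i
    have h1 := Cardinal.card_typein_lt (r := r) i hr
    rw [Ordinal.card_typein] at h1
    rw [← Cardinal.le_aleph0_iff_set_countable]
    exact Cardinal.lt_aleph_one_iff.mp (lt_of_lt_of_le h1 hι)
  have hwf : WellFounded r := wo.wf
  have hC : ∀ (i : ι) (ih : ∀ j, r j i → α),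
      (Set.range (fun j : {j // r j i} => ih j.1 j.2)).Countable := by
    intro i ih
    have : Countable {j // r j i} := (hcount i).to_subtype
    exact Set.countable_range _
  let F : (i : ι) → ((j : ι) → r j i → α) → α := fun i ih =>
    Classical.choose (h i (Set.range (fun j : {j // r j i} => ih j.1 j.2)) (hC i ih))
  let f : ι → α := hwf.fix F
  have hf : ∀ i, f i = F i (fun j _ => f j) := fun i => hwf.fix_eq F i
  have hspec : ∀ i, f i ∉ Set.range (fun j : {j // r j i} => f j.1) ∧ P i (f i) := by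
    intro i
    rw [hf i]
    exact Classical.choose_spec (h i (Set.range (fun j : {j // r j i} => f j.1))
      (hC i (fun j _ => f j)))
  refine ⟨f, ?_, fun i => (hspec i).2⟩
  intro i j hij
  by_contra hne
  rcases lt_or_gt_of_ne_wo r hne with h1 | h1
  · exact (hspec j).1 ⟨⟨i, h1⟩, hij⟩
  · exact (hspec i).1 ⟨⟨j, h1⟩, hij.symm⟩

/-- Below the reaping number, families of infinite sets are split by a single set. -/
theorem exists_splits (hr : ℵ₁ < reapingNumber) (R : Set (Set ℕ)) (hR : #R ≤ ℵ₁)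
    (hinf : ∀ N ∈ R, N.Infinite) : ∃ X : Set ℕ, ∀ N ∈ R, Splits X N := by
  by_contra hcon
  push Not at hcon
  have h1 : IsReaping R := ⟨hinf, hcon⟩
  have h2 : reapingNumber ≤ #R := csInf_le' ⟨R, h1, rfl⟩
  exact absurd (lt_of_lt_of_le hr (h2.trans hR)) (lt_irrefl _)

/-- Below the reaping number, there is a sequence of sets all of whose finite boolean combinations
meet every member of a given family of aleph-one many infinite sets in an infinite set. -/
theorem exists_split_seq (hr : ℵ₁ < reapingNumber) (R : Set (Set ℕ)) (hR : #R ≤ ℵ₁)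
    (hinf : ∀ N ∈ R, N.Infinite) : ∃ X : ℕ → Set ℕ, ∀ N ∈ R, ∀ (k : ℕ) (s : ℕ → Prop),
      {n ∈ N | ∀ i < k, (n ∈ X i ↔ s i)}.Infinite := by
  classical
  let St := {R : Set (Set ℕ) // #R ≤ ℵ₁ ∧ ∀ N ∈ R, N.Infinite}
  have hex : ∀ R : St, ∃ X : Set ℕ, ∀ N ∈ R.1, Splits X N := fun R =>
    exists_splits hr R.1 R.2.1 R.2.2
  choose f hf using hex
  have hnext : ∀ R : St, #(((fun N => N ∩ f R) '' R.1 ∪ (fun N => N \ f R) '' R.1 :
      Set (Set ℕ))) ≤ ℵ₁ ∧ ∀ N ∈ ((fun N => N ∩ f R) '' R.1 ∪ (fun N => N \ f R) '' R.1 :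
      Set (Set ℕ)), N.Infinite := by
    intro R
    constructor
    · refine (Cardinal.mk_union_le _ _).trans ?_
      have h1 := (Cardinal.mk_image_le (f := fun N => N ∩ f R) (s := R.1)).trans R.2.1
      have h2 := (Cardinal.mk_image_le (f := fun N => N \ f R) (s := R.1)).trans R.2.1
      exact Cardinal.add_le_of_le (Cardinal.aleph0_le_aleph 1) h1 h2
    · rintro N (⟨M, hM, rfl⟩ | ⟨M, hM, rfl⟩)
      · exact (hf R M hM).1
      · exact (hf R M hM).2
  let nxt : St → St := fun R => ⟨_, hnext R⟩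
  let seq : ℕ → St := fun k => Nat.rec ⟨R, hR, hinf⟩ (fun _ R => nxt R) k
  refine ⟨fun k => f (seq k), ?_⟩
  intro N hN k s
  have key : ∀ k, {n ∈ N | ∀ i < k, (n ∈ f (seq i) ↔ s i)} ∈ (seq k).1 := by
    intro k
    induction k with
    | zero =>
      have : {n ∈ N | ∀ i < 0, (n ∈ f (seq i) ↔ s i)} = N := by ext; simp
      rw [this]; exact hN
    | succ k ih =>
      by_cases hs : s k
      · refine Or.inl ⟨_, ih, ?_⟩
        ext n
        simp only [Set.mem_inter_iff, Set.mem_ofPred_eq, Nat.lt_succ_iff_lt_or_eq]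
        constructor
        · rintro ⟨⟨h1, h2⟩, h3⟩
          refine ⟨h1, ?_⟩
          rintro i (hi | rfl)
          · exact h2 i hi
          · exact ⟨fun _ => hs, fun _ => h3⟩
        · rintro ⟨h1, h2⟩
          exact ⟨⟨h1, fun i hi => h2 i (Or.inl hi)⟩, (h2 k (Or.inr rfl)).2 hs⟩
      · refine Or.inr ⟨_, ih, ?_⟩
        ext n
        simp only [Set.mem_sdiff, Set.mem_ofPred_eq, Nat.lt_succ_iff_lt_or_eq]
        constructor
        · rintro ⟨⟨h1, h2⟩, h3⟩
          refine ⟨h1, ?_⟩
          rintro i (hi | rfl)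
          · exact h2 i hi
          · exact ⟨fun h => absurd h h3, fun h => absurd h hs⟩
        · rintro ⟨h1, h2⟩
          exact ⟨⟨h1, fun i hi => h2 i (Or.inl hi)⟩, fun h => hs ((h2 k (Or.inr rfl)).1 h)⟩
  exact (seq k).2.2 _ (key k)

/-- The node of the binary tree attached to `n` by a sequence of sets. -/
noncomputable def node (X : ℕ → Set ℕ) (n : ℕ) : TreeVertex :=
  ⟨n, fun i => @decide (n ∈ X i) (Classical.propDecidable _)⟩

theorem node_injective (X : ℕ → Set ℕ) : Function.Injective (node X) := by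
  intro m n h
  exact congrArg Sigma.fst h

theorem onRay_node (X : ℕ → Set ℕ) (r : ℕ → Bool) (n : ℕ) :
    OnRay r (node X n) ↔ ∀ i < n, (n ∈ X i ↔ r i = true) := by
  unfold OnRay node
  constructor
  · intro h i hi
    have := h ⟨i, hi⟩
    simp only at this
    rw [← this]
    simp
  · intro h i
    have := h i.1 i.2
    simp only
    by_cases hi : n ∈ X i
    · simp [hi, this.1 hi]
    · have h2 : r i = false := by
        by_contra h3
        exact hi (this.2 (by simpa using h3))
      simp [hi, h2]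

/-- The rays through a given node on which a set has infinitely many nodes are uncountably many. -/
theorem exists_ray (X : ℕ → Set ℕ) (N : Set ℕ)
    (hN : ∀ (k : ℕ) (s : ℕ → Prop), {n ∈ N | ∀ i < k, (n ∈ X i ↔ s i)}.Infinite)
    (b : ℕ) (C : Set (ℕ → Bool)) (hC : C.Countable) :
    ∃ r, r ∉ C ∧ OnRay r (node X b) ∧ {n ∈ N | OnRay r (node X n)}.Infinite := by
  classical
  -- an enumeration of `C`
  obtain ⟨c, hc⟩ : ∃ c : ℕ → (ℕ → Bool), C ⊆ Set.range c := by
    rcases C.eq_empty_or_nonempty with h | h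
    · exact ⟨fun _ _ => false, by simp [h]⟩
    · obtain ⟨c, hc⟩ := hC.exists_eq_range h
      exact ⟨c, hc.subset⟩
  have hstep : ∀ (k m : ℕ), ∃ n, n ∈ N ∧ m < n ∧ (∀ i < m, (n ∈ X i ↔ m ∈ X i)) ∧
      (n ∈ X m ↔ ¬ c k m = true) := by
    intro k m
    have h1 := hN (m + 1) (fun i => if i < m then m ∈ X i else ¬ c k m = true)
    obtain ⟨n, hn, hmn⟩ := h1.exists_gt m
    refine ⟨n, hn.1, hmn, ?_, ?_⟩
    · intro i hi
      have := hn.2 i (by omega)
      simpa [hi] using this
    · have := hn.2 m (by omega)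
      simpa using this
  choose nx hnxN hnxlt hnxag hnxne using hstep
  let n : ℕ → ℕ := fun k => Nat.rec b (fun k m => nx k m) k
  have hn0 : n 0 = b := rfl
  have hns : ∀ k, n (k + 1) = nx k (n k) := fun k => rfl
  have hlt : ∀ k, n k < n (k + 1) := fun k => by rw [hns]; exact hnxlt _ _
  have hmono : StrictMono n := strictMono_nat_of_lt_succ hlt
  have hge : ∀ k, k ≤ n k := fun k => hmono.id_le k
  have hag : ∀ k l, k ≤ l → ∀ i < n k, (n l ∈ X i ↔ n k ∈ X i) := by
    intro k l hkl
    induction l, hkl using Nat.le_induction with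
    | base => intro i _; exact Iff.rfl
    | succ l hkl ih =>
      intro i hi
      rw [hns, hnxag l (n l) i (lt_of_lt_of_le hi (hmono.monotone hkl))]
      exact ih i hi
  let r : ℕ → Bool := fun i => decide (n (i + 1) ∈ X i)
  have hr : ∀ i, (r i = true ↔ n (i + 1) ∈ X i) := fun i => by simp [r]
  have hray : ∀ k, OnRay r (node X (n k)) := by
    intro k
    rw [onRay_node]
    intro i hi
    rw [hr]
    rcases le_total k (i + 1) with h | h
    · exact (hag k (i + 1) h i hi).symm
    · exact hag (i + 1) k h i (lt_of_lt_of_le (Nat.lt_succ_self i) (hge (i + 1)))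
  refine ⟨r, ?_, ?_, ?_⟩
  · intro hrC
    obtain ⟨k, hk⟩ := hc hrC
    have h1 := hray (k + 1)
    rw [onRay_node] at h1
    have h2 := h1 (n k) (hlt k)
    rw [hns, hnxne k (n k), hk] at h2
    by_cases h3 : r (n k) = true
    · exact (h2.2 h3) h3
    · exact h3 (h2.1 h3)
  · exact hn0 ▸ hray 0
  · have h1 : (Set.range (fun k => n (k + 1))).Infinite :=
      Set.infinite_range_of_injective (fun (u v : ℕ) (h : n (u + 1) = n (v + 1)) => by
        have h2 : u + 1 = v + 1 := hmono.injective h
        omega)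
    refine h1.mono ?_
    rintro _ ⟨k, rfl⟩
    refine ⟨?_, hray (k + 1)⟩
    simp only [hns]
    exact hnxN _ _

end Pool.Agent.H38.BT
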