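import Mathlib

/-!
Definitions for the characterisation of the inequality between the first uncountable cardinal and
the reaping number through spanning subgraphs of binary type.
-/

namespace Pool.Agent.H38.BT

open Cardinal Set

/-- `G` is an (aleph-zero, aleph-one)-graph with bipartition `(A, B)`: the vertex set is the
disjoint union of `A` and `B`, every edge joins `A` to `B`, every vertex of `A` has degree exactly
aleph-zero and every vertex of `B` has degree exactly aleph-one. -/
structure IsAlephGraph {V : Type} (G : SimpleGraph V) (A B : Set V) : Prop where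
  disj : Disjoint A B
  union : A ∪ B = Set.univ
  bip : ∀ x y, G.Adj x y → (x ∈ A ∧ y ∈ B) ∨ (x ∈ B ∧ y ∈ A)
  degA : ∀ a ∈ A, #(G.neighborSet a) = ℵ₀
  degB : ∀ b ∈ B, #(G.neighborSet b) = ℵ₁

/-- The vertices of the infinite binary tree `T`: finite words of bits, a word of length `n` being
a function `Fin n → Bool`; the root is the empty word and the children of a word are its two
extensions by one bit. -/
abbrev TreeVertex : Type := Σ n : ℕ, (Fin n → Bool)

/-- The ray of `T` starting at the root and given by the infinite word `r` contains the vertex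
`v`: the word `v` is an initial segment of `r`. -/
def OnRay (r : ℕ → Bool) (v : TreeVertex) : Prop := ∀ i : Fin v.1, v.2 i = r i

/-- The graph `H_T`: its vertices are the rays of `T` that start at the root (infinite words) and
the vertices of `T`, and a ray is adjacent to exactly the vertices of `T` on it. -/
def rayGraph : SimpleGraph ((ℕ → Bool) ⊕ TreeVertex) where
  Adj x y := (∃ r v, x = Sum.inl r ∧ y = Sum.inr v ∧ OnRay r v) ∨
    (∃ r v, x = Sum.inr v ∧ y = Sum.inl r ∧ OnRay r v)
  symm := by
    constructor
    rintro x y (⟨r, v, hx, hy, h⟩ | ⟨r, v, hx, hy, h⟩)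
    · exact Or.inr ⟨r, v, hy, hx, h⟩
    · exact Or.inl ⟨r, v, hy, hx, h⟩
  loopless := by
    constructor
    rintro x (⟨r, v, hx, hy, h⟩ | ⟨r, v, hx, hy, h⟩)
    · rw [hx] at hy; cases hy
    · rw [hx] at hy; cases hy

/-- `F` is a star factor of `G` with bipartition `(A, B)`: a subgraph of `G` in which every vertex
of `A` has exactly one neighbour and every vertex of `B` has exactly aleph-one neighbours. -/
structure IsStarFactor {V : Type} (G : SimpleGraph V) (A B : Set V) (F : SimpleGraph V) :
    Prop where
  le : F ≤ G
  degA : ∀ a ∈ A, ∃! b, F.Adj a b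
  degB : ∀ b ∈ B, #(F.neighborSet b) = ℵ₁

/-- The set `X` splits the set `N`: both `N ∩ X` and `N \ X` are infinite. -/
def Splits (X N : Set ℕ) : Prop := (N ∩ X).Infinite ∧ (N \ X).Infinite

/-- `R` is a reaping family: all its members are infinite subsets of `ℕ`, and no single subset
of `ℕ` splits all of them. -/
def IsReaping (R : Set (Set ℕ)) : Prop :=
  (∀ N ∈ R, N.Infinite) ∧ ∀ X : Set ℕ, ∃ N ∈ R, ¬ Splits X N

/-- The reaping number: the least cardinality of a reaping family. -/
noncomputable def reapingNumber : Cardinal.{0} := sInf {κ | ∃ R : Set (Set ℕ), IsReaping R ∧ #R = κ}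

end Pool.Agent.H38.BT
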