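import Pool.Agent.H38.BT.Comb

namespace Pool.Agent.H38.BT

open Cardinal Set

variable {V : Type} {G : SimpleGraph V} {A B : Set V}

theorem IsAlephGraph.notMemA (hG : IsAlephGraph G A B) {b : V} (hb : b ∈ B) : b ∉ A := fun ha =>
  (Set.disjoint_left.mp hG.disj ha) hb

theorem IsAlephGraph.memB (hG : IsAlephGraph G A B) {a b : V} (ha : a ∈ A) (hab : G.Adj a b) :
    b ∈ B := by
  rcases hG.bip a b hab with ⟨_, h⟩ | ⟨h, _⟩
  · exact h
  · exact absurd ha (hG.notMemA h)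

theorem IsAlephGraph.memA (hG : IsAlephGraph G A B) {a b : V} (hb : b ∈ B) (hab : G.Adj b a) :
    a ∈ A := by
  rcases hG.bip b a hab with ⟨h, _⟩ | ⟨_, h⟩
  · exact absurd h (hG.notMemA hb)
  · exact h

theorem IsAlephGraph.nbhd_infinite (hG : IsAlephGraph G A B) {a : V} (ha : a ∈ A) :
    (G.neighborSet a).Infinite := by
  rw [← Set.infinite_coe_iff, Cardinal.infinite_iff, hG.degA a ha]

theorem IsAlephGraph.exists_nbr (hG : IsAlephGraph G A B) {a : V} (ha : a ∈ A) :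
    ∃ b, G.Adj a b := by
  obtain ⟨b, hb⟩ := (hG.nbhd_infinite ha).nonempty
  exact ⟨b, hb⟩

theorem IsAlephGraph.mkA_le (hG : IsAlephGraph G A B) (hB : B.Countable) : #A ≤ ℵ₁ := by
  have h1 : A ⊆ ⋃ b ∈ B, G.neighborSet b := by
    intro a ha
    obtain ⟨b, hb⟩ := hG.exists_nbr ha
    simp only [Set.mem_iUnion]
    exact ⟨b, hG.memB ha hb, hb.symm⟩
  refine (Cardinal.mk_le_mk_of_subset h1).trans ?_
  refine (Cardinal.mk_biUnion_le _ _).trans ?_
  have h2 : (⨆ b : B, #(G.neighborSet b.1)) ≤ ℵ₁ := ciSup_le' fun b => (hG.degB b.1 b.2).le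
  have h3 : #B ≤ ℵ₁ := (Cardinal.le_aleph0_iff_set_countable.mpr hB).trans
    (Cardinal.aleph0_le_aleph 1)
  calc #B * (⨆ b : B, #(G.neighborSet b.1)) ≤ ℵ₁ * ℵ₁ := mul_le_mul' h3 h2
    _ = ℵ₁ := Cardinal.mul_eq_self (Cardinal.aleph0_le_aleph 1)

/-- Every (aleph-zero, aleph-one)-graph with countable side `B` has a star factor. -/
theorem exists_starFactor (hG : IsAlephGraph G A B) (hB : B.Countable) :
    ∃ F, IsStarFactor G A B F := by
  classical
  let Ω : Type := (ℵ₁ : Cardinal.{0}).out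
  have hΩ : #Ω = ℵ₁ := Cardinal.mk_out _
  have hι : #(B × Ω) ≤ ℵ₁ := by
    rw [Cardinal.mk_prod, Cardinal.lift_id, Cardinal.lift_id, hΩ]
    have h3 : #B ≤ ℵ₁ := (Cardinal.le_aleph0_iff_set_countable.mpr hB).trans
      (Cardinal.aleph0_le_aleph 1)
    calc #B * ℵ₁ ≤ ℵ₁ * ℵ₁ := mul_le_mul' h3 le_rfl
      _ = ℵ₁ := Cardinal.mul_eq_self (Cardinal.aleph0_le_aleph 1)
  obtain ⟨f, hfinj, hf⟩ := exists_transversal hι (fun p a => G.Adj p.1.1 a) (by
    rintro ⟨b, ξ⟩ C hC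
    by_contra hcon
    push Not at hcon
    have h1 : G.neighborSet b.1 ⊆ C := by
      intro a ha
      by_contra hac
      exact hcon a hac ha
    have h2 := (Cardinal.le_aleph0_iff_set_countable.mpr (hC.mono h1))
    rw [hG.degB b.1 b.2] at h2
    exact absurd h2 (not_le.mpr Cardinal.aleph0_lt_aleph_one))
  have hc : ∀ a : A, ∃ b, G.Adj a.1 b ∧ ∀ p : B × Ω, f p = a.1 → b = p.1.1 := by
    intro a
    by_cases h : ∃ p : B × Ω, f p = a.1
    · obtain ⟨p, hp⟩ := h
      refine ⟨p.1.1, ?_, ?_⟩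
      · rw [← hp]; exact (hf p).symm
      · intro q hq
        rw [hfinj (hp.trans hq.symm)]
    · obtain ⟨b, hb⟩ := hG.exists_nbr a.2
      exact ⟨b, hb, fun p hp => absurd ⟨p, hp⟩ h⟩
  choose c hcadj hcf using hc
  let F : SimpleGraph V :=
    { Adj := fun x y => (∃ h : x ∈ A, y = c ⟨x, h⟩) ∨ (∃ h : y ∈ A, x = c ⟨y, h⟩)
      symm := by
        constructor
        rintro x y (h | h)
        · exact Or.inr h
        · exact Or.inl h
      loopless := by
        constructor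
        rintro x (⟨h, hx⟩ | ⟨h, hx⟩)
        · have := hcadj ⟨x, h⟩
          rw [← hx] at this
          exact this.ne rfl
        · have := hcadj ⟨x, h⟩
          rw [← hx] at this
          exact this.ne rfl }
  have hFG : F ≤ G := by
    rintro x y (⟨h, rfl⟩ | ⟨h, rfl⟩)
    · exact hcadj ⟨x, h⟩
    · exact (hcadj ⟨y, h⟩).symm
  refine ⟨F, hFG, ?_, ?_⟩
  · intro a ha
    refine ⟨c ⟨a, ha⟩, Or.inl ⟨ha, rfl⟩, ?_⟩
    rintro b (⟨h, rfl⟩ | ⟨h, hb⟩)
    · rfl
    · exfalso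
      have h1 : a ∈ B := by rw [hb]; exact hG.memB h (hcadj ⟨b, h⟩)
      exact hG.notMemA h1 ha
  · intro b hb
    refine le_antisymm ?_ ?_
    · rw [← hG.degB b hb]
      exact Cardinal.mk_le_mk_of_subset (fun x hx => hFG hx)
    · have hmem : ∀ ξ : Ω, f (⟨b, hb⟩, ξ) ∈ F.neighborSet b := by
        intro ξ
        have hA : f (⟨b, hb⟩, ξ) ∈ A := hG.memA hb (hf (⟨b, hb⟩, ξ))
        exact Or.inr ⟨hA, (hcf ⟨_, hA⟩ (⟨b, hb⟩, ξ) rfl).symm⟩
      rw [← hΩ]
      refine Cardinal.mk_le_of_injective (f := fun ξ => (⟨f (⟨b, hb⟩, ξ), hmem ξ⟩ :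
        F.neighborSet b)) ?_
      intro ξ η h
      have h1 : f (⟨b, hb⟩, ξ) = f (⟨b, hb⟩, η) := congrArg Subtype.val h
      exact congrArg Prod.snd (hfinj h1)

/-- Below the reaping number, every star factor lies in a spanning subgraph of binary type. -/
theorem exists_binary (hr : ℵ₁ < reapingNumber) (hG : IsAlephGraph G A B) (hB : B.Countable)
    (F : SimpleGraph V) (hF : IsStarFactor G A B F) :
    ∃ H : SimpleGraph V, F ≤ H ∧ H ≤ G ∧ IsAlephGraph H A B ∧ H.IsContained rayGraph := by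
  classical
  obtain ⟨e, he⟩ := Set.countable_iff_exists_injOn.mp hB
  let N : A → Set ℕ := fun a => e '' (G.neighborSet a.1)
  have hsub : ∀ a : A, G.neighborSet a.1 ⊆ B := fun a b hb => hG.memB a.2 hb
  have hNinf : ∀ a, (N a).Infinite := fun a =>
    (hG.nbhd_infinite a.2).image (he.mono (hsub a))
  have hRcard : #(Set.range N) ≤ ℵ₁ := Cardinal.mk_range_le.trans (hG.mkA_le hB)
  obtain ⟨X, hX⟩ := exists_split_seq hr (Set.range N) hRcard (by
    rintro _ ⟨a, rfl⟩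
    exact hNinf a)
  have hcex : ∀ a : A, ∃ b, F.Adj a.1 b := fun a => (hF.degA a.1 a.2).exists
  choose c hc using hcex
  obtain ⟨r, hrinj, hr2⟩ := exists_transversal (hG.mkA_le hB)
    (fun (a : A) (r : ℕ → Bool) => OnRay r (node X (e (c a))) ∧
      {n ∈ N a | OnRay r (node X n)}.Infinite) (by
    intro a C hC
    exact exists_ray X (N a) (hX (N a) ⟨a, rfl⟩) (e (c a)) C hC)
  let H : SimpleGraph V :=
    { Adj := fun x y => G.Adj x y ∧ ((∃ h : x ∈ A, OnRay (r ⟨x, h⟩) (node X (e y))) ∨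
        (∃ h : y ∈ A, OnRay (r ⟨y, h⟩) (node X (e x))))
      symm := by
        constructor
        rintro x y ⟨h1, h2⟩
        exact ⟨h1.symm, h2.symm⟩
      loopless := by
        constructor
        rintro x ⟨h1, _⟩
        exact h1.ne rfl }
  have hHG : H ≤ G := fun x y h => h.1
  have hFA : ∀ x y, x ∈ A → F.Adj x y → H.Adj x y := by
    intro x y hx hxy
    have h1 : y = c ⟨x, hx⟩ := (hF.degA x hx).unique hxy (hc ⟨x, hx⟩)
    refine ⟨hF.le hxy, Or.inl ⟨hx, ?_⟩⟩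
    rw [h1]
    exact (hr2 ⟨x, hx⟩).1
  have hFH : F ≤ H := by
    intro x y hxy
    rcases hG.bip x y (hF.le hxy) with ⟨hx, _⟩ | ⟨_, hy⟩
    · exact hFA x y hx hxy
    · exact (hFA y x hy hxy.symm).symm
  have hHA : ∀ {x y}, H.Adj x y → (h : x ∈ A) → OnRay (r ⟨x, h⟩) (node X (e y)) := by
    rintro x y ⟨h1, h2 | h2⟩ hx
    · exact h2.2
    · exact absurd h2.1 (hG.notMemA (hG.memB hx h1))
  refine ⟨H, hFH, hHG, ⟨hG.disj, hG.union, fun x y h => hG.bip x y (hHG h), ?_, ?_⟩, ?_⟩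
  · intro a ha
    refine le_antisymm ?_ ?_
    · rw [← hG.degA a ha]
      exact Cardinal.mk_le_mk_of_subset (fun x hx => hHG hx)
    · rw [← Cardinal.infinite_iff, Set.infinite_coe_iff]
      have h1 := (hr2 ⟨a, ha⟩).2
      refine Set.Infinite.of_image e (h1.mono ?_)
      rintro n ⟨⟨b, hb, rfl⟩, h3⟩
      exact ⟨b, ⟨hb, Or.inl ⟨ha, h3⟩⟩, rfl⟩
  · intro b hb
    refine le_antisymm ?_ ?_
    · rw [← hG.degB b hb]
      exact Cardinal.mk_le_mk_of_subset (fun x hx => hHG hx)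
    · rw [← hF.degB b hb]
      exact Cardinal.mk_le_mk_of_subset (fun x hx => hFH hx)
  · let φ : V → (ℕ → Bool) ⊕ TreeVertex := fun x =>
      if h : x ∈ A then Sum.inl (r ⟨x, h⟩) else Sum.inr (node X (e x))
    have hφA : ∀ x (h : x ∈ A), φ x = Sum.inl (r ⟨x, h⟩) := fun x h => dif_pos h
    have hφB : ∀ x, x ∉ A → φ x = Sum.inr (node X (e x)) := fun x h => dif_neg h
    have hBof : ∀ x, x ∉ A → x ∈ B := by
      intro x hx
      have := hG.union.symm ▸ Set.mem_univ x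
      exact this.resolve_left hx
    have hφinj : Function.Injective φ := by
      intro x y hxy
      by_cases hx : x ∈ A
      · by_cases hy : y ∈ A
        · rw [hφA x hx, hφA y hy] at hxy
          have h1 := hrinj (Sum.inl_injective hxy)
          exact congrArg Subtype.val h1
        · rw [hφA x hx, hφB y hy] at hxy
          cases hxy
      · by_cases hy : y ∈ A
        · rw [hφB x hx, hφA y hy] at hxy
          cases hxy
        · rw [hφB x hx, hφB y hy] at hxy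
          exact he (hBof x hx) (hBof y hy) (node_injective X (Sum.inr_injective hxy))
    have hhom1 : ∀ {x y}, H.Adj x y → x ∈ A → rayGraph.Adj (φ x) (φ y) := by
      intro x y hxy hx
      have hy : y ∉ A := hG.notMemA (hG.memB hx (hHG hxy))
      exact Or.inl ⟨r ⟨x, hx⟩, node X (e y), hφA x hx, hφB y hy, hHA hxy hx⟩
    have hhom : ∀ {x y}, H.Adj x y → rayGraph.Adj (φ x) (φ y) := by
      intro x y hxy
      rcases hG.bip x y (hHG hxy) with ⟨hx, _⟩ | ⟨_, hy⟩
      · exact hhom1 hxy hx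
      · exact (hhom1 hxy.symm hy).symm
    exact ⟨⟨⟨φ, hhom⟩, hφinj⟩⟩

end Pool.Agent.H38.BT
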