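import Pool.Agent.H38.BT.CaseTwo
import Pool.Agent.H38.BT.Fwd

namespace Pool.Agent.H38.BT

open Cardinal Set

/-- The dominating number: the least cardinality of a set `D` of functions from `ℕ` to `ℕ` such that
every function from `ℕ` to `ℕ` is eventually bounded by a member of `D`. -/
noncomputable def dominatingNumber : Cardinal.{0} :=
  sInf {κ | ∃ D : Set (ℕ → ℕ), (∀ g : ℕ → ℕ, ∃ f ∈ D, ∀ᶠ n in Filter.atTop, g n ≤ f n) ∧ #D = κ}

theorem exists_nondominated (hd : ℵ₁ < dominatingNumber) {ι : Type} (hι : #ι ≤ ℵ₁)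
    (f : ι → ℕ → ℕ) : ∃ g : ℕ → ℕ, Monotone g ∧ (∀ n, n < g n) ∧
      ∀ i, ∀ N, ∃ n, N ≤ n ∧ f i n ≤ g n := by
  have h1 : ∃ g : ℕ → ℕ, ∀ i, ¬ ∀ᶠ n in Filter.atTop, g n ≤ f i n := by
    by_contra hcon
    push Not at hcon
    have h2 : dominatingNumber ≤ #(Set.range f) := by
      refine csInf_le' ⟨Set.range f, ?_, rfl⟩
      intro g
      obtain ⟨i, hi⟩ := hcon g
      exact ⟨f i, ⟨i, rfl⟩, hi⟩
    have h3 : dominatingNumber ≤ ℵ₁ := h2.trans (Cardinal.mk_range_le.trans hι)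
    exact absurd (lt_of_lt_of_le hd h3) (lt_irrefl _)
  obtain ⟨g, hg⟩ := h1
  let G : ℕ → ℕ := fun n => Nat.rec (g 0 + 1) (fun k G => max G (g (k + 1)) + k + 2) n
  have hG0 : G 0 = g 0 + 1 := rfl
  have hGs : ∀ k, G (k + 1) = max (G k) (g (k + 1)) + k + 2 := fun k => rfl
  have hmono : Monotone G := monotone_nat_of_le_succ (fun k => by
    rw [hGs]
    have := le_max_left (G k) (g (k + 1))
    omega)
  have hgt : ∀ n, n < G n := by
    intro n
    cases n with
    | zero => rw [hG0]; omega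
    | succ k => rw [hGs]; omega
  have hge : ∀ n, g n ≤ G n := by
    intro n
    cases n with
    | zero => rw [hG0]; omega
    | succ k =>
      rw [hGs]
      have := le_max_right (G k) (g (k + 1))
      omega
  refine ⟨G, hmono, hgt, ?_⟩
  intro i N
  by_contra hcon
  push Not at hcon
  apply hg i
  rw [Filter.eventually_atTop]
  refine ⟨N, fun n hn => ?_⟩
  exact (hge n).trans (hcon n hn).le

/-- Below the dominating number one interval partition serves aleph-one many infinite sets: every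
finite family of them is met by infinitely many intervals. -/
theorem exists_intervals_dom (hd : ℵ₁ < dominatingNumber) {ι : Type} (hι : #ι ≤ ℵ₁)
    (S : ι → Set ℕ) (hS : ∀ i, (S i).Infinite) :
    ∃ m : ℕ → ℕ, StrictMono m ∧ m 0 = 0 ∧ ∀ l : List ι,
      {k | ∀ i ∈ l, ∃ x ∈ S i, m k ≤ x ∧ x < m (k + 1)}.Infinite := by
  classical
  have hex : ∀ (l : List ι) (n : ℕ), ∃ h, n < h ∧ ∀ i ∈ l, ∃ x ∈ S i, n ≤ x ∧ x < h := by
    intro l n
    induction l with
    | nil => exact ⟨n + 1, Nat.lt_succ_self n, fun i hi => absurd hi (by simp)⟩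
    | cons i l ih =>
      obtain ⟨h, hh, hl⟩ := ih
      obtain ⟨x, hx, hnx⟩ := (hS i).exists_gt n
      refine ⟨max h (x + 1), lt_max_of_lt_left hh, ?_⟩
      intro j hj
      rcases List.mem_cons.mp hj with rfl | hj
      · exact ⟨x, hx, hnx.le, lt_max_of_lt_right (Nat.lt_succ_self x)⟩
      · obtain ⟨y, hy1, hy2, hy3⟩ := hl j hj
        exact ⟨y, hy1, hy2, lt_max_of_lt_left hy3⟩
  let H : List ι → ℕ → ℕ := fun l n => Nat.find (hex l n)
  have hH : ∀ l n, n < H l n ∧ ∀ i ∈ l, ∃ x ∈ S i, n ≤ x ∧ x < H l n := fun l n =>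
    Nat.find_spec (hex l n)
  have hHmono : ∀ l, Monotone (H l) := by
    intro l n n' hnn
    apply Nat.find_min' (hex l n)
    obtain ⟨h1, h2⟩ := hH l n'
    refine ⟨lt_of_le_of_lt hnn h1, ?_⟩
    intro i hi
    obtain ⟨x, hx1, hx2, hx3⟩ := h2 i hi
    exact ⟨x, hx1, hnn.trans hx2, hx3⟩
  have hlist : #(List ι) ≤ ℵ₁ :=
    (Cardinal.mk_list_le_max ι).trans (max_le (Cardinal.aleph0_le_aleph 1) hι)
  obtain ⟨g, hgm, hgt, hg⟩ := exists_nondominated hd hlist (fun l n => H l (H l n))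
  let m : ℕ → ℕ := fun k => Nat.rec 0 (fun _ m => g m) k
  have hms : ∀ k, m (k + 1) = g (m k) := fun k => rfl
  have hm : StrictMono m := strictMono_nat_of_lt_succ (fun k => by rw [hms]; exact hgt _)
  obtain ⟨blk, hblk⟩ := exists_blk hm rfl
  refine ⟨m, hm, rfl, ?_⟩
  intro l hfin
  obtain ⟨K, hK⟩ := hfin.bddAbove
  obtain ⟨n, hn1, hn2⟩ := hg l (m (K + 1))
  have hb := (hblk n (blk n)).mp rfl
  have hbK : K + 1 ≤ blk n := by
    by_contra hcon
    have h1 : blk n + 1 ≤ K + 1 := by omega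
    have h2 := hm.monotone h1
    omega
  have hn2' : H l (H l n) ≤ g n := hn2
  rcases le_or_gt (H l n) (m (blk n + 1)) with h | h
  · have h1 : blk n ∈ {k | ∀ i ∈ l, ∃ x ∈ S i, m k ≤ x ∧ x < m (k + 1)} := by
      intro i hi
      obtain ⟨x, hx1, hx2, hx3⟩ := (hH l n).2 i hi
      exact ⟨x, hx1, hb.1.trans hx2, lt_of_lt_of_le hx3 h⟩
    have := hK h1
    omega
  · have h1 : blk n + 1 ∈ {k | ∀ i ∈ l, ∃ x ∈ S i, m k ≤ x ∧ x < m (k + 1)} := by
      intro i hi
      obtain ⟨x, hx1, hx2, hx3⟩ := (hH l (m (blk n + 1))).2 i hi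
      refine ⟨x, hx1, hx2, ?_⟩
      have h2 : H l (m (blk n + 1)) ≤ H l (H l n) := hHmono l h.le
      have h3 : g n ≤ g (m (blk n + 1)) := hgm hb.2.le
      rw [hms (blk n + 1)]
      omega
    have := hK h1
    omega

/-- A pseudo-intersection. -/
theorem exists_pseudo (T : ℕ → Set ℕ) (hT : ∀ j, {k | ∀ i ≤ j, k ∈ T i}.Infinite) :
    ∃ Z : Set ℕ, Z.Infinite ∧ Z ⊆ T 0 ∧ ∀ j, (Z \ T j).Finite := by
  have hstep : ∀ j n, ∃ k, n < k ∧ ∀ i ≤ j, k ∈ T i := by
    intro j n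
    obtain ⟨k, hk, hnk⟩ := (hT j).exists_gt n
    exact ⟨k, hnk, hk⟩
  choose nx h1 h2 using hstep
  let z : ℕ → ℕ := fun j => Nat.rec (nx 0 0) (fun j z => nx (j + 1) z) j
  have hzs : ∀ j, z (j + 1) = nx (j + 1) (z j) := fun j => rfl
  have hz : StrictMono z := strictMono_nat_of_lt_succ (fun j => by rw [hzs]; exact h1 _ _)
  have hzT : ∀ j, ∀ i ≤ j, z j ∈ T i := by
    intro j
    cases j with
    | zero => exact h2 0 0
    | succ j => rw [hzs]; exact h2 _ _
  refine ⟨Set.range z, Set.infinite_range_of_injective hz.injective, ?_, ?_⟩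
  · rintro _ ⟨j, rfl⟩
    exact hzT j 0 (Nat.zero_le _)
  · intro j
    refine ((Set.finite_Iio j).image z).subset ?_
    rintro _ ⟨⟨i, rfl⟩, hi⟩
    refine ⟨i, ?_, rfl⟩
    by_contra h
    exact hi (hzT i j (not_lt.mp h))

/-- A well-order with countable initial segments. -/
theorem exists_order {Ω : Type} (hΩ : #Ω = ℵ₁) : ∃ r : Ω → Ω → Prop, IsWellOrder Ω r ∧
    ∀ i, {j | r j i}.Countable := by
  obtain ⟨r, wo, hr⟩ := Cardinal.exists_ord_eq Ω
  refine ⟨r, wo, ?_⟩
  intro i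
  have h1 := Cardinal.card_typein_lt (r := r) i hr
  rw [Ordinal.card_typein] at h1
  rw [← Cardinal.le_aleph0_iff_set_countable]
  exact Cardinal.lt_aleph_one_iff.mp (lt_of_lt_of_le h1 hΩ.le)

/-- Cofinal countable approximations: if `X` and `Y` have size at most aleph-one, there are
countable sets `C y ⊆ X` such that each `x` lies in `C y` for all but countably many `y`. -/
theorem exists_approx {X Y : Type} (hX : #X ≤ ℵ₁) (hY : #Y ≤ ℵ₁) :
    ∃ C : Y → Set X, (∀ y, (C y).Countable) ∧ ∀ x, {y | x ∉ C y}.Countable := by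
  let Ω : Type := (ℵ₁ : Cardinal.{0}).out
  have hΩ : #Ω = ℵ₁ := Cardinal.mk_out _
  obtain ⟨r, wo, hr⟩ := exists_order hΩ
  obtain ⟨u⟩ : Nonempty (X ↪ Ω) := by rw [← Cardinal.le_def, hΩ]; exact hX
  obtain ⟨v⟩ : Nonempty (Y ↪ Ω) := by rw [← Cardinal.le_def, hΩ]; exact hY
  refine ⟨fun y => {x | r (u x) (v y)}, ?_, ?_⟩
  · intro y
    exact (hr (v y)).preimage u.injective
  · intro x
    refine (((hr (u x)).preimage v.injective).union
      (Set.Countable.preimage (Set.countable_singleton (u x)) v.injective)).mono ?_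
    intro y hy
    have hy' : ¬ r (u x) (v y) := hy
    by_cases h : u x = v y
    · exact Or.inr h.symm
    · rcases lt_or_gt_of_ne_wo r h with h1 | h1
      · exact absurd h1 hy'
      · exact Or.inl h1

end Pool.Agent.H38.BT
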