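import Pool.Agent.H38.BT.Dom
import Pool.Agent.H38.BT.Bwd

namespace Pool.Agent.H38.BT

open Cardinal Set

/-- If the reaping number is at most aleph-one and the dominating number is larger, every nonempty
(aleph-zero, aleph-one)-graph with countable side `B` has a minor which is indivisible or of binary
type. -/
theorem good_of_dominating {V : Type} [hV : Nonempty V] {G : SimpleGraph V} {A B : Set V}
    (hG : IsAlephGraph G A B) (hB : B.Countable) (hd : ℵ₁ < dominatingNumber)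
    {R : Set (Set ℕ)} (hR : IsReaping R) (hRc : #R ≤ ℵ₁) : HasGoodMinor G := by
  classical
  have hAu : ¬ A.Countable := hG.not_countable
  obtain ⟨a0, ha0⟩ : A.Nonempty := by
    rw [Set.nonempty_iff_ne_empty]
    intro h
    apply hAu
    rw [h]
    exact Set.countable_empty
  have hBinf : Infinite B := by
    rw [Set.infinite_coe_iff]
    exact (hG.nbhd_infinite ha0).mono (fun b hb => hG.memB ha0 hb)
  have hBc : Countable B := hB.to_subtype
  obtain ⟨e⟩ : Nonempty (B ≃ ℕ) := nonempty_equiv_of_countable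
  -- the sets to be met
  let S : (R ⊕ A) → Set ℕ := fun i => Sum.elim (fun r => r.1)
    (fun a => {n | G.Adj a.1 (e.symm n).1}) i
  have hS : ∀ i, (S i).Infinite := by
    rintro (r | a)
    · exact hR.1 r.1 r.2
    · intro hfin
      apply hG.nbhd_infinite a.2
      refine (hfin.image (fun n => (e.symm n).1)).subset ?_
      intro b hb
      refine ⟨e ⟨b, hG.memB a.2 hb⟩, ?_, ?_⟩
      · change G.Adj a.1 (e.symm (e _)).1
        rw [Equiv.symm_apply_apply]
        exact hb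
      · simp
  have hι : #(R ⊕ A) ≤ ℵ₁ := by
    rw [Cardinal.mk_sum, Cardinal.lift_id, Cardinal.lift_id]
    exact Cardinal.add_le_of_le (Cardinal.aleph0_le_aleph 1) hRc (hG.mkA_le hB)
  obtain ⟨m, hm, hm0, hmS⟩ := exists_intervals_dom hd hι S hS
  obtain ⟨blk, hblk⟩ := exists_blk hm hm0
  let W : (R ⊕ A) → Set ℕ := fun i => {k | ∃ x ∈ S i, blk x = k}
  have hW : ∀ l : List (R ⊕ A), {k | ∀ i ∈ l, k ∈ W i}.Infinite := by
    intro l
    refine (hmS l).mono ?_
    intro k hk i hi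
    obtain ⟨x, hx1, hx2⟩ := hk i hi
    exact ⟨x, hx1, (hblk x k).mpr hx2⟩
  obtain ⟨C, hC1, hC2⟩ := exists_approx (X := R) (Y := A) hRc (hG.mkA_le hB)
  have hZex : ∀ a : A, ∃ Z : Set ℕ, Z.Infinite ∧ Z ⊆ W (Sum.inr a) ∧
      ∀ r ∈ C a, (Z \ W (Sum.inl r)).Finite := by
    intro a
    obtain ⟨c, hc⟩ : ∃ c : ℕ → (R ⊕ A), c 0 = Sum.inr a ∧ ∀ r ∈ C a, ∃ j, c j = Sum.inl r := by
      rcases (C a).eq_empty_or_nonempty with h | h
      · exact ⟨fun _ => Sum.inr a, rfl, fun r hr => by rw [h] at hr; exact hr.elim⟩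
      · obtain ⟨d, hd⟩ := (hC1 a).exists_eq_range h
        refine ⟨fun j => Nat.casesOn j (Sum.inr a) (fun j => Sum.inl (d j)), rfl, ?_⟩
        intro r hr
        rw [hd] at hr
        obtain ⟨j, hj⟩ := hr
        exact ⟨j + 1, congrArg Sum.inl hj⟩
    obtain ⟨Z, hZ1, hZ2, hZ3⟩ := exists_pseudo (fun j => W (c j)) (by
      intro j
      refine (hW (List.ofFn (fun i : Fin (j + 1) => c i))).mono ?_
      intro k hk i hi
      exact hk (c i) (List.mem_ofFn.mpr ⟨⟨i, Nat.lt_succ_of_le hi⟩, rfl⟩))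
    refine ⟨Z, hZ1, ?_, ?_⟩
    · have h1 : Z ⊆ W (c 0) := hZ2
      rw [hc.1] at h1
      exact h1
    · intro r hr
      obtain ⟨j, hj⟩ := hc.2 r hr
      have h1 := hZ3 j
      simp only [hj] at h1
      exact h1
  choose Z hZ1 hZ2 hZ3 using hZex
  let F : V → ℕ := fun v => if h : v ∈ B then blk (e ⟨v, h⟩) else 0
  have hFe : ∀ (v : V) (h : v ∈ B), F v = blk (e ⟨v, h⟩) := fun v h => dif_pos h
  have hF : ∀ k, {b | b ∈ B ∧ F b = k}.Finite := by
    intro k
    refine ((Set.finite_Iio (m (k + 1))).image (fun n => (e.symm n).1)).subset ?_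
    rintro b ⟨hb, hbk⟩
    rw [hFe b hb] at hbk
    exact ⟨e ⟨b, hb⟩, ((hblk _ _).mp hbk).2, by simp⟩
  let N : V → Set V := fun a => {b | G.Adj a b ∧ ∃ h : a ∈ A, F b ∈ Z ⟨a, h⟩}
  have hNinf : ∀ a ∈ A, (N a).Infinite := by
    intro a ha hfin
    apply hZ1 ⟨a, ha⟩
    refine (hfin.image F).subset ?_
    intro k hk
    obtain ⟨x, hx1, hx2⟩ := hZ2 ⟨a, ha⟩ hk
    have h1 : G.Adj a (e.symm x).1 := hx1
    have h2 : F (e.symm x).1 = k := by
      rw [hFe _ (e.symm x).2]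
      have h3 : e ⟨(e.symm x).1, (e.symm x).2⟩ = x := by simp
      rw [h3, hx2]
    exact ⟨(e.symm x).1, ⟨h1, ha, by rw [h2]; exact hk⟩, h2⟩
  let s : Sys G A B :=
    { hG := hG
      e := e
      F := F
      hF := hF
      A' := A
      hA' := subset_rfl
      hA'u := hAu
      N := N
      hN := fun a _ b hb => hb.1
      hNinf := hNinf }
  have hbad : ∀ (r : R) (Y : Set ℕ), (W (Sum.inl r) ∩ Y).Finite →
      {a | a ∈ A ∧ {b | b ∈ N a ∧ F b ∈ Y}.Infinite}.Countable := by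
    intro r Y hfin
    refine ((hC2 r).image Subtype.val).mono ?_
    rintro a ⟨ha, hinf⟩
    refine ⟨⟨a, ha⟩, ?_, rfl⟩
    intro hr
    apply hinf
    have h1 : (Z ⟨a, ha⟩ ∩ Y).Finite := by
      refine (hfin.union (hZ3 ⟨a, ha⟩ r hr)).subset ?_
      rintro k ⟨hk1, hk2⟩
      by_cases h : k ∈ W (Sum.inl r)
      · exact Or.inl ⟨h, hk2⟩
      · exact Or.inr ⟨hk1, h⟩
    refine (h1.biUnion (fun k _ => hF k)).subset ?_
    rintro b ⟨⟨hb1, h2, hb2⟩, hb3⟩
    simp only [Set.mem_iUnion]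
    exact ⟨F b, ⟨hb2, hb3⟩, hG.memB ha hb1, rfl⟩
  apply s.good_of_ultra
  intro Y
  obtain ⟨N0, hN0, hns⟩ := hR.2 {x | blk x ∈ Y}
  have h1 : (N0 ∩ {x | blk x ∈ Y}).Finite ∨ (N0 \ {x | blk x ∈ Y}).Finite := by
    by_contra hcon
    push Not at hcon
    exact hns hcon
  rcases h1 with h1 | h1
  · right
    apply hbad ⟨N0, hN0⟩
    refine (h1.image blk).subset ?_
    rintro k ⟨⟨x, hx, hxk⟩, hk⟩
    exact ⟨x, ⟨hx, by change blk x ∈ Y; rw [hxk]; exact hk⟩, hxk⟩
  · left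
    apply hbad ⟨N0, hN0⟩ Yᶜ
    refine (h1.image blk).subset ?_
    rintro k ⟨⟨x, hx, hxk⟩, hk⟩
    exact ⟨x, ⟨hx, by change blk x ∉ Y; rw [hxk]; exact hk⟩, hxk⟩

/-- Below the reaping number every (aleph-zero, aleph-one)-graph with countable side `B` has a
minor of binary type. -/
theorem good_of_reaping {V : Type} [hV : Nonempty V] {G : SimpleGraph V} {A B : Set V}
    (hG : IsAlephGraph G A B) (hB : B.Countable) (hr : ℵ₁ < reapingNumber) : HasGoodMinor G := by
  obtain ⟨F, hF⟩ := exists_starFactor hG hB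
  obtain ⟨H, _, hHG, hH, hc⟩ := exists_binary hr hG hB F hF
  refine ⟨V, H, A, B, hV, ⟨fun v => {v}, ?_, ?_, ?_⟩, hH, Or.inr hc⟩
  · intro v
    exact connected_singleton G v
  · intro v w hvw
    rw [Set.disjoint_singleton]
    exact hvw
  · intro v w hvw
    exact ⟨v, rfl, w, rfl, hHG hvw⟩

theorem good_of_max {V : Type} [hV : Nonempty V] {G : SimpleGraph V} {A B : Set V}
    (hG : IsAlephGraph G A B) (hB : B.Countable)
    (h : ℵ₁ < dominatingNumber ∨ ℵ₁ < reapingNumber) : HasGoodMinor G := by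
  by_cases hr : ℵ₁ < reapingNumber
  · exact good_of_reaping hG hB hr
  · obtain ⟨R, hR, hRc⟩ := exists_isReaping
    exact good_of_dominating hG hB (h.resolve_right hr) hR (hRc.trans_le (not_lt.mp hr))

end Pool.Agent.H38.BT
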