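import Pool.Agent.H38.BT.Meager
import Pool.Agent.H38.BT.CaseTwo

namespace Pool.Agent.H38.BT

open Cardinal Set

/-- The set `X` belongs to the filter of `G`: all but countably many vertices of `A` have all but
finitely many of their neighbours in `X`. -/
def InFilter {V : Type} (G : SimpleGraph V) (A X : Set V) : Prop :=
  {a | a ∈ A ∧ (G.neighborSet a \ X).Infinite}.Countable

/-- The trace on `B` of the filter of `G` is meagre in the Cantor space of all subsets of `B`
(functions from `B` to `Bool` with the product topology). -/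
def MeagerFilter {V : Type} (G : SimpleGraph V) (A B : Set V) : Prop :=
  IsMeagre {x : B → Bool | InFilter G A {v | ∃ h : v ∈ B, x ⟨v, h⟩ = true}}

/-- The filter of `G` is nearly ultra: under some function `f` which is finite-to-one on `B` its
image is an ultrafilter on `ℕ`, that is, for every set `Y` of numbers the preimage of `Y` or the
preimage of its complement belongs to the filter. -/
def NearlyUltraFilter {V : Type} (G : SimpleGraph V) (A B : Set V) : Prop :=
  ∃ f : V → ℕ, (∀ k, {b | b ∈ B ∧ f b = k}.Finite) ∧
    ∀ Y : Set ℕ, InFilter G A {v | f v ∈ Y} ∨ InFilter G A {v | f v ∉ Y}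

theorem hasBinary_of_meagerFilter {V : Type} {G : SimpleGraph V} {A B : Set V}
    (hG : IsAlephGraph G A B) (hB : B.Countable) (h : MeagerFilter G A B) :
    HasBinarySubgraph G A B := by
  apply hasBinary_of_meagre hG hB
  refine IsMeagre.mono ?_ h
  intro x hx
  refine Set.Countable.mono ?_ hx
  rintro a ⟨ha, hinf⟩
  refine ⟨ha, ?_⟩
  intro hfin
  apply hinf
  refine (hfin.image Subtype.val).subset ?_
  rintro v ⟨hv1, hv2⟩
  have hvB : v ∈ B := hG.memB ha hv1
  refine ⟨⟨v, hvB⟩, ⟨hv1, ?_⟩, rfl⟩
  by_contra h3
  apply hv2
  refine ⟨hvB, ?_⟩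
  simpa using h3

theorem good_of_filter {V : Type} [hV : Nonempty V] {G : SimpleGraph V} {A B : Set V}
    (hG : IsAlephGraph G A B) (hB : B.Countable)
    (h : MeagerFilter G A B ∨ NearlyUltraFilter G A B) : HasGoodMinor G := by
  rcases h with h | ⟨f, hf, hu⟩
  · exact hasGoodMinor_of_binary (hasBinary_of_meagerFilter hG hB h)
  · have hAu : ¬ A.Countable := hG.not_countable
    obtain ⟨a0, ha0⟩ : A.Nonempty := by
      rw [Set.nonempty_iff_ne_empty]
      intro h
      apply hAu
      rw [h]
      exact Set.countable_empty
    have hBinf : Infinite B := by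
      rw [Set.infinite_coe_iff]
      exact (hG.nbhd_infinite ha0).mono (fun b hb => hG.memB ha0 hb)
    have hBc : Countable B := hB.to_subtype
    obtain ⟨e⟩ : Nonempty (B ≃ ℕ) := nonempty_equiv_of_countable
    let s : Sys G A B :=
      { hG := hG
        e := e
        F := f
        hF := hf
        A' := A
        hA' := subset_rfl
        hA'u := hAu
        N := fun a => G.neighborSet a
        hN := fun a _ => subset_rfl
        hNinf := fun a ha => hG.nbhd_infinite ha }
    apply s.good_of_ultra
    intro Y
    rcases hu Y with h1 | h1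
    · left
      refine h1.mono ?_
      rintro a ⟨ha, hinf⟩
      exact ⟨ha, hinf.mono fun b hb => ⟨hb.1, hb.2⟩⟩
    · right
      refine h1.mono ?_
      rintro a ⟨ha, hinf⟩
      exact ⟨ha, hinf.mono fun b hb => ⟨hb.1, fun h => h hb.2⟩⟩

end Pool.Agent.H38.BT
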