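import Mathlib

namespace Pool.Agent.H38.BT

open Set

theorem exists_cylinder {U : Set (ℕ → Bool)} (hU : IsOpen U) {z : ℕ → Bool} (hz : z ∈ U) :
    ∃ n, ∀ y : ℕ → Bool, (∀ i < n, y i = z i) → y ∈ U := by
  obtain ⟨s, ⟨x, n, rfl⟩, hs1, hs2⟩ :=
    (PiNat.isTopologicalBasis_cylinders (fun _ : ℕ => Bool)).exists_subset_of_mem_open hz hU
  refine ⟨n, fun y hy => hs2 ?_⟩
  rw [PiNat.mem_cylinder_iff] at hs1 ⊢
  intro i hi
  rw [hy i hi, hs1 i hi]

theorem exists_agree_of_dense {U : Set (ℕ → Bool)} (hU : Dense U) (y : ℕ → Bool) (m : ℕ) :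
    ∃ z ∈ U, ∀ i < m, z i = y i := by
  obtain ⟨z, hz1, hz2⟩ := hU.exists_mem_open (PiNat.isOpen_cylinder (fun _ : ℕ => Bool) y m)
    ⟨y, PiNat.self_mem_cylinder y m⟩
  exact ⟨z, hz1, fun i hi => PiNat.mem_cylinder_iff.mp hz2 i hi⟩

theorem exists_block {U : Set (ℕ → Bool)} (hUo : IsOpen U) (hUd : Dense U) (m : ℕ) :
    ∃ (m' : ℕ) (t : ℕ → Bool), m < m' ∧
      ∀ x : ℕ → Bool, (∀ i, m ≤ i → i < m' → x i = t i) → x ∈ U := by
  classical
  have key : ∀ P : Finset (Fin m → Bool), ∃ (m' : ℕ) (t : ℕ → Bool), m < m' ∧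
      ∀ p ∈ P, ∀ x : ℕ → Bool, (∀ i : Fin m, x i = p i) →
        (∀ i, m ≤ i → i < m' → x i = t i) → x ∈ U := by
    intro P
    induction P using Finset.induction_on with
    | empty => exact ⟨m + 1, fun _ => false, Nat.lt_succ_self m, fun p hp => absurd hp (by simp)⟩
    | insert p P _ ih =>
      obtain ⟨m1, t, hm1, ht⟩ := ih
      let y : ℕ → Bool := fun i => if h : i < m then p ⟨i, h⟩ else t i
      obtain ⟨z, hzU, hz⟩ := exists_agree_of_dense hUd y m1
      obtain ⟨n, hn⟩ := exists_cylinder hUo hzU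
      refine ⟨max m1 n, fun i => if i < m1 then t i else z i, lt_max_of_lt_left hm1, ?_⟩
      intro q hq x hx1 hx2
      rcases Finset.mem_insert.mp hq with rfl | hq
      · apply hn
        intro i hi
        by_cases h1 : i < m
        · rw [hz i (h1.trans hm1)]
          simp only [y]
          rw [dif_pos h1]
          exact hx1 ⟨i, h1⟩
        · rw [hx2 i (not_lt.mp h1) (lt_max_of_lt_right hi)]
          by_cases h2 : i < m1
          · simp only [if_pos h2]
            rw [hz i h2]
            simp only [y]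
            rw [dif_neg h1]
          · simp only [if_neg h2]
      · apply ht q hq x hx1
        intro i hi1 hi2
        rw [hx2 i hi1 (lt_max_of_lt_left hi2)]
        simp only [if_pos hi2]
  obtain ⟨m', t, hm', ht⟩ := key Finset.univ
  exact ⟨m', t, hm', fun x hx => ht (fun i => x i) (Finset.mem_univ _) x (fun _ => rfl) hx⟩

/-- An upward closed meagre family of subsets of `ℕ` admits an interval partition all but finitely
many intervals of which meet each member of the family. -/
theorem exists_intervals (M : Set (ℕ → Bool)) (hM : IsMeagre M)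
    (hup : ∀ x ∈ M, ∀ y : ℕ → Bool, (∀ i, x i = true → y i = true) → y ∈ M) :
    ∃ m : ℕ → ℕ, StrictMono m ∧ m 0 = 0 ∧
      ∀ x ∈ M, {k | ∀ i, m k ≤ i → i < m (k + 1) → x i = false}.Finite := by
  classical
  obtain ⟨S, hSo, hSd, hSc, hS⟩ := mem_residual_iff.mp hM
  -- a decreasing sequence of dense open sets
  obtain ⟨O, hOo, hOd, hO⟩ : ∃ O : ℕ → Set (ℕ → Bool), (∀ n, IsOpen (O n)) ∧
      (∀ n, Dense (O n)) ∧ ⋂ n, O n ⊆ Mᶜ := by
    rcases S.eq_empty_or_nonempty with h | h
    · refine ⟨fun _ => Set.univ, fun _ => isOpen_univ, fun _ => dense_univ, ?_⟩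
      rw [h] at hS
      simpa using hS
    · obtain ⟨O, hO⟩ := hSc.exists_eq_range h
      refine ⟨O, fun n => hSo _ (hO ▸ ⟨n, rfl⟩), fun n => hSd _ (hO ▸ ⟨n, rfl⟩), ?_⟩
      rw [hO, Set.sInter_range] at hS
      exact hS
  let U : ℕ → Set (ℕ → Bool) := fun k => Nat.rec (O 0) (fun k U => U ∩ O (k + 1)) k
  have hU0 : U 0 = O 0 := rfl
  have hUs : ∀ k, U (k + 1) = U k ∩ O (k + 1) := fun k => rfl
  have hUod : ∀ k, IsOpen (U k) ∧ Dense (U k) := by
    intro k
    induction k with
    | zero => exact ⟨hOo 0, hOd 0⟩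
    | succ k ih =>
      rw [hUs]
      exact ⟨ih.1.inter (hOo _), ih.2.inter_of_isOpen_left (hOd _) ih.1⟩
  have hUanti : Antitone U := antitone_nat_of_succ_le (fun k => by
    rw [hUs]; exact Set.inter_subset_left)
  have hUO : ∀ k, U k ⊆ O k := by
    intro k
    cases k with
    | zero => exact subset_rfl
    | succ k => rw [hUs]; exact Set.inter_subset_right
  choose nx t hnx ht using fun (k : ℕ) (m : ℕ) => exists_block (hUod k).1 (hUod k).2 m
  let m : ℕ → ℕ := fun k => Nat.rec 0 (fun k m => nx k m) k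
  have hms : ∀ k, m (k + 1) = nx k (m k) := fun k => rfl
  have hmono : StrictMono m := strictMono_nat_of_lt_succ (fun k => by rw [hms]; exact hnx _ _)
  refine ⟨m, hmono, rfl, ?_⟩
  intro x hx
  by_contra hinf
  have hinf : {k | ∀ i, m k ≤ i → i < m (k + 1) → x i = false}.Infinite := hinf
  set K := {k | ∀ i, m k ≤ i → i < m (k + 1) → x i = false} with hK
  let y : ℕ → Bool := fun i =>
    x i || @decide (∃ k : ℕ, k ∈ K ∧ m k ≤ i ∧ i < m (k + 1) ∧ t k (m k) i = true)
      (Classical.propDecidable _)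
  have hy : y ∈ M := hup x hx y (fun i hi => by simp [y, hi])
  have hyU : ∀ k ∈ K, y ∈ U k := by
    intro k hk
    apply ht k (m k) y
    intro i hi1 hi2
    rw [← hms] at hi2
    have hxi : x i = false := hk i hi1 hi2
    by_cases hti : t k (m k) i = true
    · have : ∃ k : ℕ, k ∈ K ∧ m k ≤ i ∧ i < m (k + 1) ∧ t k (m k) i = true :=
        ⟨k, hk, hi1, hi2, hti⟩
      simp only [y]
      rw [hti, hxi]
      simpa using this
    · have h2 : ¬ ∃ k : ℕ, k ∈ K ∧ m k ≤ i ∧ i < m (k + 1) ∧ t k (m k) i = true := by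
        rintro ⟨k', hk', h3, h4, h5⟩
        have h6 : k' = k := by
          rcases lt_trichotomy k' k with h | h | h
          · have := hmono.monotone (show k' + 1 ≤ k from h)
            omega
          · exact h
          · have := hmono.monotone (show k + 1 ≤ k' from h)
            omega
        rw [h6] at h5
        exact hti h5
      simp only [y]
      rw [hxi]
      have h3 : t k (m k) i = false := by simpa using hti
      rw [h3]
      simpa using h2
  have hall : y ∈ ⋂ n, O n := by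
    rw [Set.mem_iInter]
    intro n
    obtain ⟨k, hk, hnk⟩ := hinf.exists_gt n
    exact hUO n (hUanti hnk.le (hyU k hk))
  exact hO hall hy

end Pool.Agent.H38.BT
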