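import Pool.Agent.H38.BT.Assemble
import Pool.Agent.H38.BT.Talagrand

namespace Pool.Agent.H38.BT

open Cardinal Set

theorem onRay_infinite (κ : ℕ ≃ TreeVertex) (r : ℕ → Bool) : {k | OnRay r (κ k)}.Infinite := by
  have h1 : (Set.range (fun n : ℕ => κ.symm ⟨n, fun i => r i⟩)).Infinite := by
    apply Set.infinite_range_of_injective
    intro m n h
    have h2 := κ.symm.injective h
    exact congrArg Sigma.fst h2
  refine h1.mono ?_
  rintro _ ⟨n, rfl⟩
  change OnRay r (κ (κ.symm _))
  rw [Equiv.apply_symm_apply]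
  intro i
  rfl

/-- A labelling of `B` by tree vertices, finite-to-one, such that every ray catches infinitely many
neighbours of uncountably many vertices of `A`, gives a subgraph of binary type. -/
theorem hasBinary_of_label {V : Type} {G : SimpleGraph V} {A B : Set V} (hG : IsAlephGraph G A B)
    (e : B ≃ ℕ) (f : ℕ → TreeVertex) (hf : ∀ v, {n | f n = v}.Finite)
    {Ω : Type} (hΩ : #Ω = ℵ₁) (ρ : Ω → (ℕ → Bool)) (hρ : Function.Injective ρ)
    (h : ∀ ξ, ¬ {a | a ∈ A ∧ {b : B | G.Adj a b ∧ OnRay (ρ ξ) (f (e b))}.Infinite}.Countable) :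
    HasBinarySubgraph G A B := by
  classical
  have hB : B.Countable := Set.countable_coe_iff.mp (Countable.of_equiv ℕ e.symm)
  obtain ⟨g, t, hg, ht, hgt⟩ := exists_stretch f hf
  obtain ⟨α, hα, hα2⟩ := exists_transversal (ι := Ω) (α := V) hΩ.le
    (fun ξ a => a ∈ A ∧ {b : B | G.Adj a b ∧ OnRay (ρ ξ) (f (e b))}.Infinite) (by
    intro ξ C hC
    by_contra hcon
    push Not at hcon
    apply h ξ
    refine hC.mono ?_
    intro a ha
    by_contra hac
    exact ha.2 (hcon a hac ha.1))
  let N : Ω → Set V := fun ξ => Subtype.val '' {b : B | G.Adj (α ξ) b ∧ OnRay (ρ ξ) (f (e b))}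
  refine assemble hG hB hΩ α hα (fun ξ => (hα2 ξ).1) N ?_ ?_ (fun ξ => t (ρ ξ))
    (fun ξ η hξη => hρ (ht hξη)) (fun b => if hb : b ∈ B then g (e ⟨b, hb⟩) else g 0) ?_ ?_
  · rintro ξ _ ⟨b, hb, rfl⟩
    exact hb.1
  · intro ξ
    exact (hα2 ξ).2.image Subtype.val_injective.injOn
  · intro x hx y hy hxy
    simp only [dif_pos hx, dif_pos hy] at hxy
    have h1 := e.injective (hg hxy)
    exact congrArg Subtype.val h1
  · rintro ξ _ ⟨b, hb, rfl⟩
    simp only [dif_pos b.2]
    exact hgt _ _ hb.2

/-- If the family of all subsets `X` of `B` such that all but countably many vertices of `A` have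
all but finitely many of their neighbours in `X` is meagre, there is a subgraph of binary type. -/
theorem hasBinary_of_meagre {V : Type} {G : SimpleGraph V} {A B : Set V}
    (hG : IsAlephGraph G A B) (hB : B.Countable)
    (hM : IsMeagre {x : B → Bool |
      {a | a ∈ A ∧ {b : B | G.Adj a b ∧ x b = false}.Infinite}.Countable}) :
    HasBinarySubgraph G A B := by
  classical
  rcases A.eq_empty_or_nonempty with hA | ⟨a0, ha0⟩
  · exfalso
    have h1 : {x : B → Bool |
      {a | a ∈ A ∧ {b : B | G.Adj a b ∧ x b = false}.Infinite}.Countable} = Set.univ := by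
      ext x
      simp only [Set.mem_ofPred_eq, Set.mem_univ, iff_true]
      have : {a | a ∈ A ∧ {b : B | G.Adj a b ∧ x b = false}.Infinite} = ∅ := by
        ext a
        simp [hA]
      rw [this]
      exact Set.countable_empty
    rw [h1] at hM
    have h2 : (Set.univ : Set (B → Bool))ᶜ ∈ residual (B → Bool) := hM
    have h3 := dense_of_mem_residual h2
    rw [Set.compl_univ] at h3
    obtain ⟨x, hx⟩ := h3.nonempty
    exact hx
  have hBinf : Infinite B := by
    rw [Set.infinite_coe_iff]
    exact (hG.nbhd_infinite ha0).mono (fun b hb => hG.memB ha0 hb)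
  have hBc : Countable B := hB.to_subtype
  obtain ⟨e⟩ : Nonempty (B ≃ ℕ) := nonempty_equiv_of_countable
  obtain ⟨κ⟩ : Nonempty (ℕ ≃ TreeVertex) := by
    have h1 : Infinite TreeVertex := by
      apply Infinite.of_injective (fun n : ℕ => (⟨n, fun _ => false⟩ : TreeVertex))
      intro m n h
      exact congrArg Sigma.fst h
    exact nonempty_equiv_of_countable
  let Φ : (ℕ → Bool) ≃ₜ (B → Bool) :=
    { toFun := fun y b => y (e b)
      invFun := fun x n => x (e.symm n)
      left_inv := fun y => by funext n; simp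
      right_inv := fun x => by funext b; simp
      continuous_toFun := continuous_pi fun b => continuous_apply (e b)
      continuous_invFun := continuous_pi fun n => continuous_apply (e.symm n) }
  let M : Set (ℕ → Bool) := {x | {a | a ∈ A ∧ {b : B | G.Adj a b ∧ x (e b) = false}.Infinite}.Countable}
  have hM2 : IsMeagre M := hM.preimage_of_isOpenMap Φ.continuous Φ.isOpenMap
  obtain ⟨m, hm, hm0, hmM⟩ := exists_intervals M hM2 (by
    intro x hx y hxy
    refine Set.Countable.mono ?_ hx
    rintro a ⟨ha, hinf⟩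
    refine ⟨ha, hinf.mono ?_⟩
    rintro b ⟨hb1, hb2⟩
    refine ⟨hb1, ?_⟩
    by_contra h
    have h1 : x (e b) = true := by simpa using h
    rw [hxy _ h1] at hb2
    cases hb2)
  have hblk : ∀ n, ∃ k, m k ≤ n ∧ n < m (k + 1) := by
    intro n
    refine ⟨Nat.findGreatest (fun k => m k ≤ n) n, ?_, ?_⟩
    · exact Nat.findGreatest_spec (P := fun k => m k ≤ n) (m := 0) (Nat.zero_le _)
        (by rw [hm0]; exact Nat.zero_le _)
    · by_contra hcon
      have h1 := not_lt.mp hcon
      have h2 : Nat.findGreatest (fun k => m k ≤ n) n + 1 ≤ n := (hm.id_le _).trans h1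
      have h3 := Nat.le_findGreatest (P := fun k => m k ≤ n) h2 h1
      omega
  choose blk hblk1 hblk2 using hblk
  let f : ℕ → TreeVertex := fun n => κ (blk n)
  have hf : ∀ v, {n | f n = v}.Finite := by
    intro v
    refine (Set.finite_Iio (m (κ.symm v + 1))).subset ?_
    intro n hn
    have h1 : κ (blk n) = v := hn
    have h2 : blk n = κ.symm v := by rw [← h1]; simp
    have h3 := hblk2 n
    rw [h2] at h3
    exact h3
  let Ω : Type := (ℵ₁ : Cardinal.{0}).out
  have hΩ : #Ω = ℵ₁ := Cardinal.mk_out _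
  obtain ⟨ρ⟩ : Nonempty (Ω ↪ (ℕ → Bool)) := by
    rw [← Cardinal.le_def, hΩ]
    have h1 : #(ℕ → Bool) = 𝔠 := by simp
    rw [h1]
    exact Cardinal.aleph_one_le_continuum
  refine hasBinary_of_label hG e f hf hΩ ρ ρ.injective ?_
  intro ξ hcount
  let x : ℕ → Bool := fun n => @decide (¬ OnRay (ρ ξ) (f n)) (Classical.propDecidable _)
  have hx : ∀ n, x n = false ↔ OnRay (ρ ξ) (f n) := by
    intro n
    simp [x]
  have hxM : x ∈ M := by
    refine Set.Countable.mono ?_ hcount
    rintro a ⟨ha, hinf⟩
    refine ⟨ha, hinf.mono ?_⟩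
    rintro b ⟨hb1, hb2⟩
    exact ⟨hb1, (hx _).mp hb2⟩
  have h1 := hmM x hxM
  apply onRay_infinite κ (ρ ξ)
  refine h1.subset ?_
  intro k hk i hi1 hi2
  rw [hx]
  have h2 : blk i = k := by
    have h3 := hblk1 i
    have h4 := hblk2 i
    rcases lt_trichotomy (blk i) k with h | h | h
    · have := hm.monotone (show blk i + 1 ≤ k from h)
      omega
    · exact h
    · have := hm.monotone (show k + 1 ≤ blk i from h)
      omega
  simp only [f]
  rw [h2]
  exact hk

end Pool.Agent.H38.BT
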