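import Pool.Agent.H38.BT.Assemble

namespace Pool.Agent.H38.BT

open Cardinal Set

/-- `H` is a minor of `G`: there are pairwise disjoint (nonempty) vertex sets of `G`, one for each
vertex of `H`, each inducing a connected subgraph of `G`, such that for every edge of `H` some edge
of `G` joins the two corresponding sets. -/
def IsMinor {W V : Type} (H : SimpleGraph W) (G : SimpleGraph V) : Prop :=
  ∃ P : W → Set V, (∀ h, (G.induce (P h)).Connected) ∧
    (∀ h h', h ≠ h' → Disjoint (P h) (P h')) ∧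
    ∀ h h', H.Adj h h' → ∃ x ∈ P h, ∃ y ∈ P h', G.Adj x y

/-- The (aleph-zero, aleph-one)-graph `H` with bipartition `(A, B)` is divisible: there are disjoint
`A₁, A₂ ⊆ A` and disjoint `B₁, B₂ ⊆ B` such that `H[A₁ ∪ B₁]` and `H[A₂ ∪ B₂]` are both (nonempty)
(aleph-zero, aleph-one)-graphs. -/
def Divisible {W : Type} (H : SimpleGraph W) (A B : Set W) : Prop :=
  ∃ A₁ A₂ B₁ B₂ : Set W, A₁ ⊆ A ∧ A₂ ⊆ A ∧ B₁ ⊆ B ∧ B₂ ⊆ B ∧ Disjoint A₁ A₂ ∧ Disjoint B₁ B₂ ∧
    (A₁ ∪ B₁).Nonempty ∧ (A₂ ∪ B₂).Nonempty ∧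
    IsAlephGraph (H.induce (A₁ ∪ B₁)) {x | x.1 ∈ A₁} {x | x.1 ∈ B₁} ∧
    IsAlephGraph (H.induce (A₂ ∪ B₂)) {x | x.1 ∈ A₂} {x | x.1 ∈ B₂}

/-- `G` has a minor which is a (nonempty) (aleph-zero, aleph-one)-graph and which is indivisible or
of binary type (isomorphic to a subgraph of `rayGraph`). -/
def HasGoodMinor {V : Type} (G : SimpleGraph V) : Prop :=
  ∃ (W : Type) (H : SimpleGraph W) (A B : Set W), Nonempty W ∧ IsMinor H G ∧
    IsAlephGraph H A B ∧ (¬ Divisible H A B ∨ H.IsContained rayGraph)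

theorem connected_singleton {V : Type} (G : SimpleGraph V) (v : V) :
    (G.induce ({v} : Set V)).Connected := by
  have h1 : Nonempty ({v} : Set V) := ⟨⟨v, rfl⟩⟩
  have h2 : Subsingleton ({v} : Set V) := ⟨fun a b => Subtype.ext (a.2.trans b.2.symm)⟩
  exact ⟨SimpleGraph.Preconnected.of_subsingleton⟩

theorem hasGoodMinor_of_binary {V : Type} {G : SimpleGraph V} {A B : Set V}
    (h : HasBinarySubgraph G A B) : HasGoodMinor G := by
  obtain ⟨S, H, hS, hHG, hH, hc⟩ := h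
  refine ⟨S, H, _, _, hS.to_subtype, ⟨fun x => {x.1}, ?_, ?_, ?_⟩, hH, Or.inr hc⟩
  · intro x
    exact connected_singleton G x.1
  · intro x y hxy
    rw [Set.disjoint_singleton]
    exact fun h => hxy (Subtype.ext h)
  · intro x y hxy
    exact ⟨x.1, rfl, y.1, rfl, hHG hxy⟩

end Pool.Agent.H38.BT
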