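import Pool.Agent.H38.BT.Minor
import Pool.Agent.H38.BT.Bip

namespace Pool.Agent.H38.BT

open Cardinal Set

/-- Chains of `D`-edges inside `T`. -/
def Conn {V : Type} (D : SimpleGraph V) (T : Set V) : V → V → Prop :=
  Relation.ReflTransGen (fun x y => D.Adj x y ∧ x ∈ T ∧ y ∈ T)

theorem Conn.symm {V : Type} {D : SimpleGraph V} {T : Set V} {x y : V} (h : Conn D T x y) :
    Conn D T y x := by
  induction h with
  | refl => exact Relation.ReflTransGen.refl
  | tail _ h2 ih => exact Relation.ReflTransGen.head ⟨h2.1.symm, h2.2.2, h2.2.1⟩ ih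

theorem Conn.trans {V : Type} {D : SimpleGraph V} {T : Set V} {x y z : V} (h : Conn D T x y)
    (h' : Conn D T y z) : Conn D T x z := Relation.ReflTransGen.trans h h'

theorem Conn.mono {V : Type} {D : SimpleGraph V} {T T' : Set V} (hT : T ⊆ T') {x y : V}
    (h : Conn D T x y) : Conn D T' x y := by
  induction h with
  | refl => exact Relation.ReflTransGen.refl
  | tail _ h2 ih => exact Relation.ReflTransGen.tail ih ⟨h2.1, hT h2.2.1, hT h2.2.2⟩

theorem Conn.mem {V : Type} {D : SimpleGraph V} {T : Set V} {x y : V} (h : Conn D T x y)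
    (hx : x ∈ T) : y ∈ T := by
  induction h with
  | refl => exact hx
  | tail _ h2 _ => exact h2.2.2

/-- A system: an uncountable set of vertices of `A` with infinite sets of chosen neighbours, and a
finite-to-one level function on `B`. -/
structure Sys {V : Type} (G : SimpleGraph V) (A B : Set V) where
  hG : IsAlephGraph G A B
  e : B ≃ ℕ
  F : V → ℕ
  hF : ∀ k, {b | b ∈ B ∧ F b = k}.Finite
  A' : Set V
  hA' : A' ⊆ A
  hA'u : ¬ A'.Countable
  N : V → Set V
  hN : ∀ a ∈ A', N a ⊆ G.neighborSet a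
  hNinf : ∀ a ∈ A', (N a).Infinite

namespace Sys

variable {V : Type} {G : SimpleGraph V} {A B : Set V} (s : Sys G A B)

include s in
theorem hB : B.Countable := Set.countable_coe_iff.mp (Countable.of_equiv ℕ s.e.symm)

theorem hNB {a : V} (ha : a ∈ s.A') : s.N a ⊆ B := fun _ hb => s.hG.memB (s.hA' ha) (s.hN a ha hb)

/-- Two vertices are joined when they have uncountably many common chosen neighbours. -/
def D : SimpleGraph V where
  Adj b b' := b ≠ b' ∧ ¬ {a | a ∈ s.A' ∧ b ∈ s.N a ∧ b' ∈ s.N a}.Countable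
  symm := by
    constructor
    rintro b b' ⟨h1, h2⟩
    refine ⟨h1.symm, ?_⟩
    intro h3
    apply h2
    refine h3.mono ?_
    rintro a ⟨ha, hb, hb'⟩
    exact ⟨ha, hb', hb⟩
  loopless := by
    constructor
    rintro b ⟨h1, _⟩
    exact h1 rfl

/-- The vertices whose chosen neighbours are pairwise joined. -/
def A1 : Set V := {a | a ∈ s.A' ∧ ∀ b ∈ s.N a, ∀ b' ∈ s.N a, b ≠ b' → s.D.Adj b b'}

theorem diff_countable : (s.A' \ s.A1).Countable := by
  have h1 : s.A' \ s.A1 ⊆ ⋃ b ∈ B, ⋃ b' ∈ B, {a | (b ≠ b' ∧ ¬ s.D.Adj b b') ∧ a ∈ s.A' ∧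
      b ∈ s.N a ∧ b' ∈ s.N a} := by
    rintro a ⟨ha, ha2⟩
    have h2 : ¬ ∀ b ∈ s.N a, ∀ b' ∈ s.N a, b ≠ b' → s.D.Adj b b' := fun h => ha2 ⟨ha, h⟩
    push Not at h2
    obtain ⟨b, hb, b', hb', hne, hD⟩ := h2
    simp only [Set.mem_iUnion]
    exact ⟨b, s.hNB ha hb, b', s.hNB ha hb', ⟨hne, hD⟩, ha, hb, hb'⟩
  refine Set.Countable.mono h1 (s.hB.biUnion fun b _ => s.hB.biUnion fun b' _ => ?_)
  by_cases h : b ≠ b' ∧ ¬ s.D.Adj b b'
  · have h2 : {a | a ∈ s.A' ∧ b ∈ s.N a ∧ b' ∈ s.N a}.Countable := by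
      by_contra h3
      exact h.2 ⟨h.1, h3⟩
    exact h2.mono fun a ha => ha.2
  · have h2 : {a | (b ≠ b' ∧ ¬ s.D.Adj b b') ∧ a ∈ s.A' ∧ b ∈ s.N a ∧ b' ∈ s.N a} = ∅ := by
      ext a
      constructor
      · intro ha; exact (h ha.1).elim
      · intro ha; exact ha.elim
    rw [h2]
    exact Set.countable_empty

theorem A1_uncountable : ¬ s.A1.Countable := by
  intro h
  apply s.hA'u
  refine (h.union s.diff_countable).mono ?_
  intro a ha
  by_cases h1 : a ∈ s.A1
  · exact Or.inl h1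
  · exact Or.inr ⟨ha, h1⟩

/-- The elements of `B` of level at least `m`. -/
def up (m : ℕ) : Set V := {b | b ∈ B ∧ m ≤ s.F b}

/-- The elements of `B` of level in `[m, n)`. -/
def seg (m n : ℕ) : Set V := {b | b ∈ B ∧ m ≤ s.F b ∧ s.F b < n}

theorem seg_finite (m n : ℕ) : (s.seg m n).Finite := by
  refine ((Set.finite_Iio n).biUnion (fun k _ => s.hF k)).subset ?_
  rintro b ⟨hb, _, h2⟩
  simp only [Set.mem_iUnion]
  exact ⟨s.F b, h2, hb, rfl⟩

theorem conn_up {a : V} (ha : a ∈ s.A1) {m : ℕ} {b b' : V} (hb : b ∈ s.N a) (hb' : b' ∈ s.N a)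
    (h : m ≤ s.F b) (h' : m ≤ s.F b') : Conn s.D (s.up m) b b' := by
  by_cases hne : b = b'
  · rw [hne]; exact Relation.ReflTransGen.refl
  · exact Relation.ReflTransGen.single ⟨ha.2 b hb b' hb' hne, ⟨s.hNB ha.1 hb, h⟩,
      ⟨s.hNB ha.1 hb', h'⟩⟩

theorem conn_bounded {m : ℕ} {b b' : V} (h : Conn s.D (s.up m) b b') :
    ∃ n, Conn s.D (s.seg m n) b b' := by
  induction h with
  | refl => exact ⟨0, Relation.ReflTransGen.refl⟩
  | @tail x y _ h2 ih =>
    obtain ⟨n, hn⟩ := ih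
    refine ⟨max n (max (s.F x + 1) (s.F y + 1)), ?_⟩
    refine Relation.ReflTransGen.tail (Conn.mono ?_ hn) ⟨h2.1, ?_, ?_⟩
    · rintro z ⟨hz1, hz2, hz3⟩
      exact ⟨hz1, hz2, lt_max_of_lt_left hz3⟩
    · exact ⟨h2.2.1.1, h2.2.1.2, by
        apply lt_max_of_lt_right
        apply lt_max_of_lt_left
        exact Nat.lt_succ_self _⟩
    · exact ⟨h2.2.2.1, h2.2.2.2, by
        apply lt_max_of_lt_right
        apply lt_max_of_lt_right
        exact Nat.lt_succ_self _⟩

/-- Enumeration of `B`. -/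
def en (j : ℕ) : V := (s.e.symm j).1

theorem en_mem (j : ℕ) : s.en j ∈ B := (s.e.symm j).2

theorem en_injective : Function.Injective s.en := fun _ _ h =>
  s.e.symm.injective (Subtype.ext h)

theorem exists_en {b : V} (hb : b ∈ B) : ∃ j, s.en j = b := ⟨s.e ⟨b, hb⟩, by simp [en]⟩

/-- The end of the graph `D` given by a vertex of `A`, coded as an infinite word. -/
noncomputable def ray (a : V) : ℕ → Bool := fun i =>
  @decide (∃ b ∈ s.N a, (Nat.unpair i).1 ≤ s.F b ∧
    Conn s.D (s.up (Nat.unpair i).1) b (s.en (Nat.unpair i).2)) (Classical.propDecidable _)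

theorem ray_iff (a : V) (i : ℕ) : s.ray a i = true ↔ ∃ b ∈ s.N a, (Nat.unpair i).1 ≤ s.F b ∧
    Conn s.D (s.up (Nat.unpair i).1) b (s.en (Nat.unpair i).2) := by
  unfold ray
  simp

/-- The tree vertex coding the position of `b` with respect to the components of `D`. -/
noncomputable def label (b : V) : TreeVertex := ⟨s.F b + 1, fun i =>
  @decide (Conn s.D (s.up (Nat.unpair i).1) b (s.en (Nat.unpair i).2))
    (Classical.propDecidable _)⟩

theorem onRay_label {a : V} (ha : a ∈ s.A1) {b : V} (hb : b ∈ s.N a) :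
    OnRay (s.ray a) (s.label b) := by
  intro i
  have hi : (i : ℕ) < s.F b + 1 := i.2
  have hm : (Nat.unpair (i : ℕ)).1 ≤ s.F b :=
    (Nat.unpair_left_le _).trans (Nat.le_of_lt_succ hi)
  have h1 : (s.label b).2 i = true ↔
      Conn s.D (s.up (Nat.unpair (i : ℕ)).1) b (s.en (Nat.unpair (i : ℕ)).2) := by
    unfold label
    simp
  have h2 : (s.label b).2 i = true ↔ s.ray a i = true := by
    rw [h1, ray_iff]
    constructor
    · intro h
      exact ⟨b, hb, hm, h⟩
    · rintro ⟨b0, hb0, hm0, h0⟩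
      exact (s.conn_up ha hb hb0 hm hm0).trans h0
  cases h3 : (s.label b).2 i
  · cases h4 : s.ray a i
    · rfl
    · rw [h2.mpr h4] at h3
      cases h3
  · exact (h2.mp h3).symm

theorem label_finite (v : TreeVertex) : {n | s.label (s.en n) = v}.Finite := by
  refine ((s.hF (v.1 - 1)).preimage (f := s.en) s.en_injective.injOn).subset ?_
  intro n hn
  have hn' : s.label (s.en n) = v := hn
  refine ⟨s.en_mem n, ?_⟩
  rw [← hn']
  rfl

/-- If every end is taken countably often there is a subgraph of binary type. -/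
theorem case_one (h : ∀ x, {a | a ∈ s.A1 ∧ s.ray a = x}.Countable) :
    HasBinarySubgraph G A B := by
  classical
  let Ω : Type := (ℵ₁ : Cardinal.{0}).out
  have hΩ : #Ω = ℵ₁ := Cardinal.mk_out _
  obtain ⟨g, t, hg, ht, hgt⟩ := exists_stretch (fun n => s.label (s.en n)) s.label_finite
  obtain ⟨x, hx, hx2⟩ := exists_transversal (ι := Ω) (α := ℕ → Bool) hΩ.le
    (fun _ x => ∃ a, a ∈ s.A1 ∧ s.ray a = x) (by
    intro ξ C hC
    by_contra hcon
    push Not at hcon
    apply s.A1_uncountable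
    refine Set.Countable.mono ?_ (hC.biUnion (t := fun x _ => {a | a ∈ s.A1 ∧ s.ray a = x})
      fun x _ => h x)
    intro a ha
    simp only [Set.mem_iUnion]
    refine ⟨s.ray a, ?_, ha, rfl⟩
    by_contra hac
    exact hcon _ hac a ha rfl)
  choose α hα1 hα2 using hx2
  refine assemble s.hG s.hB hΩ α ?_ (fun ξ => s.hA' (hα1 ξ).1) (fun ξ => s.N (α ξ)) ?_ ?_
    (fun ξ => t (x ξ)) (fun ξ η h => hx (ht h))
    (fun b => if hb : b ∈ B then g (s.e ⟨b, hb⟩) else g 0) ?_ ?_
  · intro ξ η h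
    apply hx
    rw [← hα2 ξ, ← hα2 η, h]
  · intro ξ
    exact s.hN _ (hα1 ξ).1
  · intro ξ
    exact s.hNinf _ (hα1 ξ).1
  · intro b hb b' hb' h
    simp only [dif_pos hb, dif_pos hb'] at h
    exact congrArg Subtype.val (s.e.injective (hg h))
  · intro ξ b hb
    have hbB : b ∈ B := s.hNB (hα1 ξ).1 hb
    simp only [dif_pos hbB]
    apply hgt
    have h1 : s.en (s.e ⟨b, hbB⟩) = b := by simp [en]
    simp only [h1]
    rw [← hα2 ξ]
    exact s.onRay_label (hα1 ξ) hb

end Sys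

end Pool.Agent.H38.BT
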